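import Mathlib

/-!
# Regular resolution refutations of the pigeonhole principle with infinitely many pigeons

Pigeons are natural numbers, holes are the elements of `Fin n`.
-/

namespace Pool.Agent.H8.RG

open Relation

/-- The variable `x_{ij}`, written `(i, j)`: pigeon `i` sits in hole `j`. -/
abbrev PVar (n : ℕ) := ℕ × Fin n

/-- A clause: the set of the variables which occur positively in it and the set of the variables
which occur negatively in it. -/
@[ext] structure Clause (n : ℕ) where
  /-- the variables occurring positively -/
  pos : Finset (PVar n)
  /-- the variables occurring negatively -/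
  neg : Finset (PVar n)

/-- The axioms of the functional pigeonhole principle with `n` holes: every pigeon sits in some
hole, no two pigeons sit in the same hole, no pigeon sits in two holes. -/
inductive IsAxiom {n : ℕ} : Clause n → Prop
  | pigeon (i : ℕ) : IsAxiom ⟨Finset.univ.image (fun j => (i, j)), ∅⟩
  | hole (i i' : ℕ) (j : Fin n) (h : i ≠ i') : IsAxiom ⟨∅, {(i, j), (i', j)}⟩
  | functional (i : ℕ) (j j' : Fin n) (h : j ≠ j') : IsAxiom ⟨∅, {(i, j), (i, j')}⟩

/-- The resolvent of `C` and `D` on the variable `x` (`x` is removed from the positive part of `C`
and from the negative part of `D`). -/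
def resolvent {n : ℕ} (C D : Clause n) (x : PVar n) : Clause n :=
  ⟨C.pos.erase x ∪ D.pos, C.neg ∪ D.neg.erase x⟩

/-- A resolution refutation with lines `0, ..., size - 1`: every line is an axiom (`step k = none`)
or the resolvent of two earlier lines (`step k = some (a, b, x)`), and the last line is the empty
clause. -/
structure Refutation (n : ℕ) where
  /-- the number of lines -/
  size : ℕ
  /-- the lines -/
  line : ℕ → Clause n
  /-- the justifications of the lines -/
  step : ℕ → Option (ℕ × ℕ × PVar n)
  size_pos : 0 < size
  axiom_step : ∀ k < size, step k = none → IsAxiom (line k)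
  res_step : ∀ k < size, ∀ a b x, step k = some (a, b, x) →
    a < k ∧ b < k ∧ x ∈ (line a).pos ∧ x ∈ (line b).neg ∧ line k = resolvent (line a) (line b) x
  last : line (size - 1) = ⟨∅, ∅⟩

variable {n : ℕ}

/-- `l` is one of the two premises of line `k`. -/
def Refutation.Prem (R : Refutation n) (k l : ℕ) : Prop :=
  ∃ a b x, R.step k = some (a, b, x) ∧ (l = a ∨ l = b)

/-- Line `k` is obtained by resolving on the variable `x`. -/
def Refutation.ResolvesOn (R : Refutation n) (k : ℕ) (x : PVar n) : Prop :=
  ∃ a b, R.step k = some (a, b, x)

/-- The refutation is regular: on no path which starts at the last line and goes from lines to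
premises the same variable is resolved on twice. -/
def Refutation.IsRegular (R : Refutation n) : Prop :=
  ∀ k l x, ReflTransGen R.Prem (R.size - 1) k → TransGen R.Prem k l →
    R.ResolvesOn k x → ¬ R.ResolvesOn l x

/-- The pigeons which occur (positively) in the refutation. -/
def Refutation.pigeons (R : Refutation n) : Finset ℕ :=
  (Finset.range R.size).biUnion fun k => (R.line k).pos.image Prod.fst

end Pool.Agent.H8.RG
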