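import Mathlib

/-!
# Random thresholds
-/

namespace Pool.Agent.H8.RG

open Finset

/-- the number of the outcomes with a threshold below `k` -/
def gg (K k : ℕ) : ℕ := (univ.filter fun x : Fin (2 ^ (K - 1)) => Nat.size x < k).card

theorem gg_le (K k : ℕ) : gg K k ≤ 2 ^ (K - 1) := by
  unfold gg
  refine (card_le_univ _).trans ?_
  rw [Fintype.card_fin]

theorem gg_succ (K k : ℕ) (hk : k + 1 ≤ K) : gg K (k + 1) = 2 ^ k := by
  unfold gg
  have : (univ.filter fun x : Fin (2 ^ (K - 1)) => Nat.size x < k + 1) =
      univ.filter fun x : Fin (2 ^ (K - 1)) => (x : ℕ) < 2 ^ k := by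
    ext x
    simp only [mem_filter, mem_univ, true_and]
    rw [Nat.lt_succ_iff, Nat.size_le]
  rw [this, Fin.card_filter_val_lt]
  apply min_eq_right
  exact Nat.pow_le_pow_right (by norm_num) (by omega)

theorem gg_zero (K : ℕ) : gg K 0 = 0 := by
  unfold gg
  simp

theorem gg_double (K k : ℕ) (hk : k ≤ K) : gg K k ≤ 2 * gg K (k - 1) + 1 := by
  rcases k with _ | k
  · rw [gg_zero]
    omega
  · rw [gg_succ K k hk, Nat.add_sub_cancel]
    rcases k with _ | k
    · rw [gg_zero]
      norm_num
    · rw [gg_succ K k (by omega), pow_succ]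
      omega

variable {ι : Type*} [Fintype ι] [DecidableEq ι]

/-- counting the outcomes which are bad for one line -/
theorem bad_count (K w : ℕ) (hcard : Fintype.card ι ≤ 2 ^ (K - 1)) (e : ι → ℕ)
    (he : ∀ i, e i ≤ K) :
    (((univ.filter fun r : ι → Fin (2 ^ (K - 1)) =>
      w ≤ (univ.filter fun i => Nat.size (r i) < e i).card ∧
        32 * (univ.filter fun i => Nat.size (r i) < e i - 1).card < w).card : ℕ) : ℝ) ≤
      (2 ^ (K - 1) : ℝ) ^ Fintype.card ι * Real.exp (1 / 4 - w / 25) := by
  classical
  set N : ℝ := 2 ^ (K - 1) with hN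
  have hNpos : 0 < N := by positivity
  set μ : ℝ := ∑ i, (gg K (e i) : ℝ) / N with hμ
  have hln1 : 0.6931471803 < Real.log 2 := Real.log_two_gt_d9
  have hln2 : Real.log 2 < 0.6931471808 := Real.log_two_lt_d9
  have htwo : (2 : ℝ) = Real.exp (Real.log 2) := (Real.exp_log (by norm_num)).symm
  have hw0 : (0 : ℝ) ≤ w := Nat.cast_nonneg w
  set B := univ.filter fun r : ι → Fin (2 ^ (K - 1)) =>
      w ≤ (univ.filter fun i => Nat.size (r i) < e i).card ∧
        32 * (univ.filter fun i => Nat.size (r i) < e i - 1).card < w with hB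
  by_cases hcase : μ ≤ w / 4
  · -- few active pigeons on average
    have h1 : (B.card : ℝ) * 2 ^ w ≤ ∑ r : ι → Fin (2 ^ (K - 1)),
        (2 : ℝ) ^ (univ.filter fun i => Nat.size (r i) < e i).card := by
      calc (B.card : ℝ) * 2 ^ w = ∑ r ∈ B, (2 : ℝ) ^ w := by rw [sum_const, nsmul_eq_mul]
        _ ≤ ∑ r ∈ B, (2 : ℝ) ^ (univ.filter fun i => Nat.size (r i) < e i).card := by
            apply sum_le_sum
            intro r hr
            exact pow_le_pow_right₀ (by norm_num) (mem_filter.mp hr).2.1
        _ ≤ _ := sum_le_sum_of_subset_of_nonneg (subset_univ _) fun _ _ _ => by positivity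
    have h2 : ∑ r : ι → Fin (2 ^ (K - 1)),
        (2 : ℝ) ^ (univ.filter fun i => Nat.size (r i) < e i).card =
        ∏ i, (N + gg K (e i)) := by
      have e1 : ∀ i, (N + gg K (e i)) =
          ∑ x : Fin (2 ^ (K - 1)), (if Nat.size x < e i then (2 : ℝ) else 1) := by
        intro i
        have e0 : ∀ x : Fin (2 ^ (K - 1)), (if Nat.size x < e i then (2 : ℝ) else 1) =
            1 + (if Nat.size x < e i then (1 : ℝ) else 0) := by
          intro x
          split_ifs <;> norm_num
        simp only [e0]
        rw [sum_add_distrib, sum_boole]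
        congr 1
        simp [hN]
      simp only [e1]
      rw [Fintype.prod_sum]
      apply sum_congr rfl
      intro r _
      rw [prod_ite, prod_const, prod_const_one, mul_one]
    have h3 : ∏ i, (N + gg K (e i)) ≤ N ^ Fintype.card ι * Real.exp μ := by
      have e1 : ∏ i, (N + gg K (e i)) ≤ ∏ i, (N * Real.exp (gg K (e i) / N)) := by
        apply prod_le_prod
        · intro i _
          positivity
        · intro i _
          have := Real.add_one_le_exp ((gg K (e i) : ℝ) / N)
          calc N + gg K (e i) = N * (gg K (e i) / N + 1) := by field_simp; ring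
            _ ≤ _ := mul_le_mul_of_nonneg_left this hNpos.le
      refine e1.trans (le_of_eq ?_)
      rw [prod_mul_distrib, prod_const, card_univ, ← Real.exp_sum]
    have h4 : (B.card : ℝ) * 2 ^ w ≤ N ^ Fintype.card ι * Real.exp μ := h1.trans (h2.trans_le h3)
    have h5 : (2 : ℝ) ^ w = Real.exp (w * Real.log 2) := by
      rw [Real.exp_nat_mul, ← htwo]
    rw [h5] at h4
    have h6 : (B.card : ℝ) ≤ N ^ Fintype.card ι * Real.exp μ * Real.exp (-(w * Real.log 2)) := by
      rw [Real.exp_neg, ← div_eq_mul_inv, le_div_iff₀ (Real.exp_pos _)]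
      exact h4
    refine h6.trans ?_
    rw [mul_assoc, ← Real.exp_add]
    apply mul_le_mul_of_nonneg_left _ (by positivity)
    apply Real.exp_le_exp.mpr
    nlinarith
  · -- many active pigeons on average
    rw [not_le] at hcase
    have hY : (μ - 1) / 2 ≤ ∑ i, (gg K (e i - 1) : ℝ) / N := by
      have e1 : ∑ i, (gg K (e i) : ℝ) ≤ 2 * ∑ i, (gg K (e i - 1) : ℝ) + N := by
        calc ∑ i, (gg K (e i) : ℝ) ≤ ∑ i, (2 * (gg K (e i - 1) : ℝ) + 1) := by
              apply sum_le_sum
              intro i _
              exact_mod_cast gg_double K (e i) (he i)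
          _ = 2 * ∑ i, (gg K (e i - 1) : ℝ) + Fintype.card ι := by
              rw [sum_add_distrib, mul_sum, sum_const, card_univ, nsmul_eq_mul, mul_one]
          _ ≤ _ := by
              have : (Fintype.card ι : ℝ) ≤ N := by
                rw [hN]
                exact_mod_cast hcard
              linarith
      rw [← sum_div, div_le_div_iff₀ (by norm_num) hNpos, hμ, ← sum_div]
      have : (∑ i, (gg K (e i) : ℝ)) / N * N = ∑ i, (gg K (e i) : ℝ) := by
        field_simp
      nlinarith
    have h1 : (B.card : ℝ) * (1 / 2 : ℝ) ^ ((w : ℝ) / 32) ≤ ∑ r : ι → Fin (2 ^ (K - 1)),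
        (1 / 2 : ℝ) ^ (univ.filter fun i => Nat.size (r i) < e i - 1).card := by
      calc (B.card : ℝ) * (1 / 2 : ℝ) ^ ((w : ℝ) / 32) =
            ∑ r ∈ B, (1 / 2 : ℝ) ^ ((w : ℝ) / 32) := by rw [sum_const, nsmul_eq_mul]
        _ ≤ ∑ r ∈ B, (1 / 2 : ℝ) ^ (univ.filter fun i => Nat.size (r i) < e i - 1).card := by
            apply sum_le_sum
            intro r hr
            rw [← Real.rpow_natCast]
            apply Real.rpow_le_rpow_of_exponent_ge (by norm_num) (by norm_num)
            have h0 : 32 * (univ.filter fun i => Nat.size (r i) < e i - 1).card ≤ w :=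
              (mem_filter.mp hr).2.2.le
            rw [le_div_iff₀ (by norm_num), mul_comm]
            exact_mod_cast h0
        _ ≤ _ := sum_le_sum_of_subset_of_nonneg (subset_univ _) fun _ _ _ => by positivity
    have h2 : ∑ r : ι → Fin (2 ^ (K - 1)),
        (1 / 2 : ℝ) ^ (univ.filter fun i => Nat.size (r i) < e i - 1).card =
        ∏ i, (N - gg K (e i - 1) / 2) := by
      have e1 : ∀ i, (N - gg K (e i - 1) / 2) =
          ∑ x : Fin (2 ^ (K - 1)), (if Nat.size x < e i - 1 then (1 / 2 : ℝ) else 1) := by
        intro i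
        have e0 : ∀ x : Fin (2 ^ (K - 1)), (if Nat.size x < e i - 1 then (1 / 2 : ℝ) else 1) =
            1 - (1 / 2) * (if Nat.size x < e i - 1 then (1 : ℝ) else 0) := by
          intro x
          split_ifs <;> norm_num
        simp only [e0]
        rw [sum_sub_distrib, ← mul_sum, sum_boole]
        unfold gg
        simp [hN]
        ring
      simp only [e1]
      rw [Fintype.prod_sum]
      apply sum_congr rfl
      intro r _
      rw [prod_ite, prod_const, prod_const_one, mul_one]
    have h3 : ∏ i, (N - gg K (e i - 1) / 2) ≤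
        N ^ Fintype.card ι * Real.exp (-((∑ i, (gg K (e i - 1) : ℝ) / N) / 2)) := by
      have e1 : ∏ i, (N - (gg K (e i - 1) : ℝ) / 2) ≤
          ∏ i, (N * Real.exp (-((gg K (e i - 1) : ℝ) / N / 2))) := by
        apply prod_le_prod
        · intro i _
          have : (gg K (e i - 1) : ℝ) ≤ N := by
            rw [hN]
            exact_mod_cast gg_le K (e i - 1)
          have h0 : (0 : ℝ) ≤ gg K (e i - 1) := by positivity
          linarith
        · intro i _
          have := Real.one_sub_le_exp_neg ((gg K (e i - 1) : ℝ) / N / 2)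
          calc N - (gg K (e i - 1) : ℝ) / 2 = N * (1 - (gg K (e i - 1) : ℝ) / N / 2) := by
                field_simp
            _ ≤ _ := mul_le_mul_of_nonneg_left this hNpos.le
      refine e1.trans (le_of_eq ?_)
      rw [prod_mul_distrib, prod_const, card_univ, ← Real.exp_sum, sum_neg_distrib, sum_div]
    have h4 := h1.trans (h2.trans_le h3)
    have h5 : (1 / 2 : ℝ) ^ ((w : ℝ) / 32) = Real.exp (-(w / 32 * Real.log 2)) := by
      rw [Real.rpow_def_of_pos (by norm_num)]
      congr 1
      rw [one_div, Real.log_inv]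
      ring
    rw [h5] at h4
    have h6 : (B.card : ℝ) ≤ N ^ Fintype.card ι *
        Real.exp (-((∑ i, (gg K (e i - 1) : ℝ) / N) / 2)) * Real.exp (w / 32 * Real.log 2) := by
      have : (B.card : ℝ) = B.card * Real.exp (-(w / 32 * Real.log 2)) *
          Real.exp (w / 32 * Real.log 2) := by
        rw [mul_assoc, ← Real.exp_add]
        simp
      rw [this]
      exact mul_le_mul_of_nonneg_right h4 (Real.exp_pos _).le
    refine h6.trans ?_
    rw [mul_assoc, ← Real.exp_add]
    apply mul_le_mul_of_nonneg_left _ (by positivity)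
    apply Real.exp_le_exp.mpr
    nlinarith

/-- there are thresholds which are good for all lines -/
theorem exists_thresholds (K w S : ℕ) (hK : 1 ≤ K) (hcard : Fintype.card ι ≤ 2 ^ (K - 1))
    (e : ℕ → ι → ℕ) (he : ∀ v i, e v i ≤ K) (hS : (S : ℝ) * Real.exp (1 / 4 - w / 25) < 1) :
    ∃ t : ι → ℕ, (∀ i, 1 ≤ t i ∧ t i ≤ K) ∧
      ∀ v < S, (univ.filter fun i => t i ≤ e v i).card < w ∨
        w ≤ 32 * (univ.filter fun i => t i + 1 ≤ e v i).card := by
  classical
  set B : ℕ → Finset (ι → Fin (2 ^ (K - 1))) := fun v =>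
    univ.filter fun r : ι → Fin (2 ^ (K - 1)) =>
      w ≤ (univ.filter fun i => Nat.size (r i) < e v i).card ∧
        32 * (univ.filter fun i => Nat.size (r i) < e v i - 1).card < w with hB
  have hN : (0 : ℝ) < (2 ^ (K - 1) : ℝ) ^ Fintype.card ι := by positivity
  have hex : ∃ r : ι → Fin (2 ^ (K - 1)), r ∉ (range S).biUnion B := by
    by_contra hcon
    push Not at hcon
    have e1 : (univ : Finset (ι → Fin (2 ^ (K - 1)))) ⊆ (range S).biUnion B :=
      fun r _ => hcon r
    have e2 := (card_le_card e1).trans card_biUnion_le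
    have e3 : (Fintype.card (ι → Fin (2 ^ (K - 1))) : ℝ) = (2 ^ (K - 1) : ℝ) ^ Fintype.card ι := by
      rw [Fintype.card_fun, Fintype.card_fin]
      push_cast
      rfl
    have e4 : (2 ^ (K - 1) : ℝ) ^ Fintype.card ι ≤
        S * ((2 ^ (K - 1) : ℝ) ^ Fintype.card ι * Real.exp (1 / 4 - w / 25)) := by
      rw [← e3]
      have e5 : (Fintype.card (ι → Fin (2 ^ (K - 1))) : ℝ) ≤ ∑ v ∈ range S, ((B v).card : ℝ) := by
        rw [← card_univ]
        exact_mod_cast e2
      refine e5.trans ?_
      rw [e3]
      calc _ ≤ ∑ v ∈ range S, ((2 ^ (K - 1) : ℝ) ^ Fintype.card ι *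
            Real.exp (1 / 4 - w / 25)) := by
            apply sum_le_sum
            intro v _
            exact bad_count K w hcard (e v) (he v)
        _ = _ := by rw [sum_const, card_range, nsmul_eq_mul]
    nlinarith
  obtain ⟨r, hr⟩ := hex
  refine ⟨fun i => Nat.size (r i) + 1, ?_, ?_⟩
  · intro i
    refine ⟨Nat.le_add_left _ _, ?_⟩
    have h0 : Nat.size (r i) ≤ K - 1 := Nat.size_le.mpr (r i).2
    change Nat.size (r i) + 1 ≤ K
    omega
  · intro v hv
    have h1 : r ∉ B v := fun h => hr (mem_biUnion.mpr ⟨v, mem_range.mpr hv, h⟩)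
    rw [hB] at h1
    simp only [mem_filter, mem_univ, true_and, not_and, not_lt] at h1
    by_cases h2 : w ≤ (univ.filter fun i => Nat.size (r i) < e v i).card
    · right
      have h3 := h1 h2
      have h4 : (univ.filter fun i => Nat.size (r i) + 1 + 1 ≤ e v i) =
          univ.filter fun i => Nat.size (r i) < e v i - 1 := by
        ext i
        simp only [mem_filter, mem_univ, true_and]
        omega
      rw [h4]
      exact h3
    · left
      rw [not_le] at h2
      have h4 : (univ.filter fun i => Nat.size (r i) + 1 ≤ e v i) =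
          univ.filter fun i => Nat.size (r i) < e v i := by
        ext i
        simp only [mem_filter, mem_univ, true_and]
        omega
      rw [h4]
      exact h2

end Pool.Agent.H8.RG
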