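import Pool.Agent.H8.RG.Defs

/-!
# Flow of literals in regular refutations
-/

namespace Pool.Agent.H8.RG

open Relation Finset

variable {n : ℕ} (R : Refutation n)

/-- Lines reachable from the last line. -/
def Refutation.Reach (k : ℕ) : Prop := ReflTransGen R.Prem (R.size - 1) k

variable {R}

theorem prem_lt {k l : ℕ} (hk : k < R.size) (h : R.Prem k l) : l < k := by
  obtain ⟨a, b, x, hs, hl⟩ := h
  have := R.res_step k hk a b x hs
  rcases hl with rfl | rfl
  · exact this.1
  · exact this.2.1

theorem refl_le {k l : ℕ} (hk : k < R.size) (h : ReflTransGen R.Prem k l) : l ≤ k := by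
  induction h with
  | refl => exact le_rfl
  | tail _ h2 ih => exact (prem_lt (lt_of_le_of_lt ih hk) h2).le.trans ih

theorem refl_lt {k l : ℕ} (hk : k < R.size) (h : ReflTransGen R.Prem k l) : l < R.size :=
  lt_of_le_of_lt (refl_le hk h) hk

theorem trans_lt {k l : ℕ} (hk : k < R.size) (h : TransGen R.Prem k l) : l < k := by
  induction h with
  | single h => exact prem_lt hk h
  | tail _ h2 ih => exact (prem_lt (ih.trans hk) h2).trans ih

theorem reach_lt {k : ℕ} (h : R.Reach k) : k < R.size :=
  refl_lt (Nat.sub_lt R.size_pos one_pos) h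

theorem Reach.tail {k l : ℕ} (h : R.Reach k) (h2 : ReflTransGen R.Prem k l) : R.Reach l :=
  ReflTransGen.trans h h2

/-- a positive literal of a premise survives or is resolved on -/
theorem pos_flow {k l : ℕ} (hk : k < R.size) (h : R.Prem k l) {x : PVar n}
    (hx : x ∈ (R.line l).pos) : x ∈ (R.line k).pos ∨ R.ResolvesOn k x := by
  obtain ⟨a, b, y, hs, hl⟩ := h
  obtain ⟨-, -, -, -, he⟩ := R.res_step k hk a b y hs
  rw [he]
  rcases hl with rfl | rfl
  · by_cases hxy : x = y
    · right; exact ⟨l, b, by rw [hs, hxy]⟩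
    · left
      simp only [resolvent, mem_union, mem_erase]
      exact Or.inl ⟨hxy, hx⟩
  · left
    simp only [resolvent, mem_union]
    exact Or.inr hx

theorem neg_flow {k l : ℕ} (hk : k < R.size) (h : R.Prem k l) {x : PVar n}
    (hx : x ∈ (R.line l).neg) : x ∈ (R.line k).neg ∨ R.ResolvesOn k x := by
  obtain ⟨a, b, y, hs, hl⟩ := h
  obtain ⟨-, -, -, -, he⟩ := R.res_step k hk a b y hs
  rw [he]
  rcases hl with rfl | rfl
  · left
    simp only [resolvent, mem_union]
    exact Or.inl hx
  · by_cases hxy : x = y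
    · right; exact ⟨a, l, by rw [hs, hxy]⟩
    · left
      simp only [resolvent, mem_union, mem_erase]
      exact Or.inr ⟨hxy, hx⟩

/-- flow along a path, from the bottom to the top -/
theorem pos_path {k l : ℕ} (hk : k < R.size) (h : ReflTransGen R.Prem k l) {x : PVar n}
    (hx : x ∈ (R.line l).pos) :
    x ∈ (R.line k).pos ∨ ∃ u, ReflTransGen R.Prem k u ∧ TransGen R.Prem u l ∧ R.ResolvesOn u x := by
  induction h with
  | refl => exact Or.inl hx
  | @tail b c h1 h2 ih =>
    rcases pos_flow (refl_lt hk h1) h2 hx with h3 | h3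
    · rcases ih h3 with h4 | ⟨u, hu1, hu2, hu3⟩
      · exact Or.inl h4
      · exact Or.inr ⟨u, hu1, hu2.tail h2, hu3⟩
    · exact Or.inr ⟨b, h1, TransGen.single h2, h3⟩

theorem neg_path {k l : ℕ} (hk : k < R.size) (h : ReflTransGen R.Prem k l) {x : PVar n}
    (hx : x ∈ (R.line l).neg) :
    x ∈ (R.line k).neg ∨ ∃ u, ReflTransGen R.Prem k u ∧ TransGen R.Prem u l ∧ R.ResolvesOn u x := by
  induction h with
  | refl => exact Or.inl hx
  | @tail b c h1 h2 ih =>
    rcases neg_flow (refl_lt hk h1) h2 hx with h3 | h3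
    · rcases ih h3 with h4 | ⟨u, hu1, hu2, hu3⟩
      · exact Or.inl h4
      · exact Or.inr ⟨u, hu1, hu2.tail h2, hu3⟩
    · exact Or.inr ⟨b, h1, TransGen.single h2, h3⟩

/-- every positive literal of a reachable line is resolved on above it -/
theorem pos_above {v : ℕ} (hv : R.Reach v) {x : PVar n} (hx : x ∈ (R.line v).pos) :
    ∃ u, R.Reach u ∧ TransGen R.Prem u v ∧ R.ResolvesOn u x := by
  rcases pos_path (Nat.sub_lt R.size_pos one_pos) hv hx with h | h
  · rw [R.last] at h
    simp at h
  · exact h

theorem neg_above {v : ℕ} (hv : R.Reach v) {x : PVar n} (hx : x ∈ (R.line v).neg) :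
    ∃ u, R.Reach u ∧ TransGen R.Prem u v ∧ R.ResolvesOn u x := by
  rcases neg_path (Nat.sub_lt R.size_pos one_pos) hv hx with h | h
  · rw [R.last] at h
    simp at h
  · exact h

/-- below every line with a positive literal `(i, j)` there is the axiom of pigeon `i` -/
theorem exists_leaf (k : ℕ) (hk : k < R.size) {x : PVar n} (hx : x ∈ (R.line k).pos) :
    ∃ l, ReflTransGen R.Prem k l ∧ R.step l = none ∧
      R.line l = ⟨Finset.univ.image (fun j => (x.1, j)), ∅⟩ := by
  induction k using Nat.strong_induction_on with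
  | _ k ih =>
    cases hs : R.step k with
    | none =>
      refine ⟨k, ReflTransGen.refl, hs, ?_⟩
      have hax := R.axiom_step k hk hs
      generalize hC : R.line k = C at hax hx
      cases hax with
      | pigeon i =>
        simp only [mem_image, mem_univ, true_and] at hx
        obtain ⟨j, hj⟩ := hx
        rw [← hj]
      | hole i i' j h => simp at hx
      | functional i j j' h => simp at hx
    | some p =>
      obtain ⟨a, b, y⟩ := p
      obtain ⟨ha, hb, -, -, he⟩ := R.res_step k hk a b y hs
      rw [he] at hx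
      simp only [resolvent, mem_union, mem_erase] at hx
      rcases hx with ⟨-, hx⟩ | hx
      · obtain ⟨l, h1, h2, h3⟩ := ih a ha (ha.trans hk) hx
        exact ⟨l, ReflTransGen.head ⟨a, b, y, hs, Or.inl rfl⟩ h1, h2, h3⟩
      · obtain ⟨l, h1, h2, h3⟩ := ih b hb (hb.trans hk) hx
        exact ⟨l, ReflTransGen.head ⟨a, b, y, hs, Or.inr rfl⟩ h1, h2, h3⟩

/-- The holes `j` such that `x_{ij}` occurs positively in line `v`. -/
def Refutation.J (R : Refutation n) (v i : ℕ) : Finset (Fin n) :=
  univ.filter fun j => (i, j) ∈ (R.line v).pos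

theorem mem_J {v i : ℕ} {j : Fin n} : j ∈ R.J v i ↔ (i, j) ∈ (R.line v).pos := by
  simp [Refutation.J]

/-- If pigeon `i` occurs positively in `v` then every variable of pigeon `i` resolved on above `v`
is still there. -/
theorem pos_of_resolved (hR : R.IsRegular) {u v i : ℕ} {j : Fin n} (hu : R.Reach u)
    (huv : TransGen R.Prem u v) (hr : R.ResolvesOn u (i, j)) (hJ : (R.J v i).Nonempty) :
    (i, j) ∈ (R.line v).pos := by
  obtain ⟨j0, hj0⟩ := hJ
  rw [mem_J] at hj0
  have hv : R.Reach v := Reach.tail hu huv.to_reflTransGen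
  obtain ⟨l, h1, -, h3⟩ := exists_leaf v (reach_lt hv) hj0
  have hx : (i, j) ∈ (R.line l).pos := by rw [h3]; simp
  rcases pos_path (reach_lt hv) h1 hx with h | ⟨u', hu1, -, hu3⟩
  · exact h
  · exact absurd hu3 (hR u u' (i, j) hu (huv.trans_left hu1) hr)

/-- a reachable line is not tautological -/
theorem disj (hR : R.IsRegular) {v : ℕ} (hv : R.Reach v) {x : PVar n}
    (hx : x ∈ (R.line v).pos) (hx' : x ∈ (R.line v).neg) : False := by
  induction hv with
  | refl =>
    rw [R.last] at hx
    simp at hx
  | @tail b c h1 h2 ih =>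
    have hb : R.Reach b := h1
    have hbs := reach_lt hb
    obtain ⟨a, a', y, hs, hl⟩ := h2
    have hprem : R.Prem b c := ⟨a, a', y, hs, hl⟩
    obtain ⟨-, -, -, -, he⟩ := R.res_step b hbs a a' y hs
    by_cases hxy : x = y
    · subst hxy
      have hres : R.ResolvesOn b x := ⟨a, a', hs⟩
      rcases hl with rfl | rfl
      · have : x ∈ (R.line b).neg := by
          rw [he]
          simp only [resolvent, mem_union]
          exact Or.inl hx'
        obtain ⟨u, hu1, hu2, hu3⟩ := neg_above hb this
        exact hR u b x hu1 hu2 hu3 hres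
      · have : x ∈ (R.line b).pos := by
          rw [he]
          simp only [resolvent, mem_union]
          exact Or.inr hx
        obtain ⟨u, hu1, hu2, hu3⟩ := pos_above hb this
        exact hR u b x hu1 hu2 hu3 hres
    · apply ih
      · rcases pos_flow hbs hprem hx with h | ⟨p, q, h⟩
        · exact h
        · rw [hs] at h
          simp only [Option.some.injEq, Prod.mk.injEq] at h
          exact absurd h.2.2.symm hxy
      · rcases neg_flow hbs hprem hx' with h | ⟨p, q, h⟩
        · exact h
        · rw [hs] at h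
          simp only [Option.some.injEq, Prod.mk.injEq] at h
          exact absurd h.2.2.symm hxy

/-- If pigeon `i` occurs positively in a reachable line then it does not occur negatively. -/
theorem not_neg_of_pos (hR : R.IsRegular) {v i : ℕ} (hv : R.Reach v) (hJ : (R.J v i).Nonempty)
    (j : Fin n) : (i, j) ∉ (R.line v).neg := by
  intro hj
  obtain ⟨u, hu1, hu2, hu3⟩ := neg_above hv hj
  exact disj hR hv (pos_of_resolved hR hu1 hu2 hu3 hJ) hj

/-- monotonicity of `J` above a line where it is nonempty -/
theorem J_mono (hR : R.IsRegular) {v v' F i : ℕ} (hv : R.Reach v)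
    (h1 : ReflTransGen R.Prem v v') (h2 : ReflTransGen R.Prem v' F) (hJ : (R.J F i).Nonempty) :
    R.J v i ⊆ R.J v' i := by
  intro j hj
  rw [mem_J] at hj ⊢
  obtain ⟨u, hu1, hu2, hu3⟩ := pos_above hv hj
  have huF : TransGen R.Prem u F := (hu2.trans_left h1).trans_left h2
  have hF := pos_of_resolved hR hu1 huF hu3 hJ
  have hv' : R.Reach v' := Reach.tail hv h1
  rcases pos_path (reach_lt hv') h2 hF with h | ⟨u', hu1', -, hu3'⟩
  · exact h
  · exact absurd hu3' (hR u u' (i, j) hu1 ((hu2.trans_left h1).trans_left hu1') hu3)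

/-- if `(i, j)` is negative in `v` then pigeon `i` does not occur positively below `v` -/
theorem J_empty_of_neg (hR : R.IsRegular) {v v' i : ℕ} {j : Fin n} (hv : R.Reach v)
    (h1 : ReflTransGen R.Prem v v') (hj : (i, j) ∈ (R.line v).neg) : ¬ (R.J v' i).Nonempty := by
  intro hJ
  obtain ⟨u, hu1, hu2, hu3⟩ := neg_above hv hj
  have hv' : R.Reach v' := Reach.tail hv h1
  have h2 := pos_of_resolved hR hu1 (hu2.trans_left h1) hu3 hJ
  rcases pos_path (reach_lt hv) h1 h2 with h | ⟨u', hu1', -, hu3'⟩
  · exact disj hR hv h hj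
  · exact hR u u' (i, j) hu1 (hu2.trans_left hu1') hu3 hu3'

/-- the number of pigeons is at most the size -/
theorem card_pigeons_le (hn : 0 < n) : R.pigeons.card ≤ R.size := by
  classical
  have h : ∀ i ∈ R.pigeons, ∃ l, l < R.size ∧
      R.line l = ⟨Finset.univ.image (fun j => (i, j)), ∅⟩ := by
    intro i hi
    simp only [Refutation.pigeons, mem_biUnion, mem_range, mem_image] at hi
    obtain ⟨k, hk, x, hx, hxi⟩ := hi
    obtain ⟨l, h1, -, h3⟩ := exists_leaf k hk hx
    exact ⟨l, refl_lt hk h1, by rw [h3, hxi]⟩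
  choose! f hf using h
  have : R.pigeons.card ≤ (range R.size).card := by
    apply Finset.card_le_card_of_injOn f
    · intro i hi
      exact mem_coe.mpr (mem_range.mpr (hf i hi).1)
    · intro i hi i' hi' he
      have e1 := (hf i hi).2
      have e2 := (hf i' hi').2
      rw [he, e2] at e1
      have e3 := congrArg Clause.pos e1
      have : (i', (⟨0, hn⟩ : Fin n)) ∈ (Finset.univ.image (fun j : Fin n => (i', j))) := by simp
      rw [show (Finset.univ.image (fun j : Fin n => (i', j))) =
        (Finset.univ.image (fun j : Fin n => (i, j))) from e3] at this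
      simp at this
      exact this
  simpa using this

end Pool.Agent.H8.RG
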