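import Pool.Agent.H8.RG.Walk
import Pool.Agent.H8.RG.Filter

/-!
# The size of regular refutations
-/

namespace Pool.Agent.H8.RG

open Finset

variable {n : ℕ}

/-- thresholds which are good for a refutation -/
theorem exists_good (R : Refutation n) (K s w : ℕ) (hK : 1 ≤ K) (hs : 1 ≤ s)
    (hKs : 24 * K * s ≤ n) (hcard : R.pigeons.card ≤ 2 ^ (K - 1))
    (hS : (R.size : ℝ) * Real.exp (1 / 4 - w / 25) < 1) :
    ∃ d : ℕ → ℕ, (∀ i, 1 ≤ d i) ∧ (∀ i, 2 * d i ≤ n) ∧
      ∀ v < R.size, (R.act d v).card < w ∨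
        w ≤ 32 * (R.act (fun i => d i + 12 * s) v).card := by
  classical
  have hc : Fintype.card {i // i ∈ R.pigeons} ≤ 2 ^ (K - 1) := by
    rw [Fintype.card_coe]
    exact hcard
  obtain ⟨t, ht1, ht2⟩ := exists_thresholds K w R.size hK hc
    (fun v i => min K ((R.J v i).card / (12 * s))) (fun v i => min_le_left _ _) hS
  set d : ℕ → ℕ := fun i => if h : i ∈ R.pigeons then 12 * s * t ⟨i, h⟩ else 12 * s with hd
  have hd1 : ∀ i, 1 ≤ d i := by
    intro i
    simp only [hd]
    split_ifs with h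
    · have := (ht1 ⟨i, h⟩).1
      nlinarith
    · omega
  have hd2 : ∀ i, 2 * d i ≤ n := by
    intro i
    simp only [hd]
    split_ifs with h
    · have h1 := (ht1 ⟨i, h⟩).2
      calc 2 * (12 * s * t ⟨i, h⟩) = 24 * t ⟨i, h⟩ * s := by ring
        _ ≤ 24 * K * s := by gcongr
        _ ≤ n := hKs
    · calc 2 * (12 * s) = 24 * 1 * s := by ring
        _ ≤ 24 * K * s := by gcongr
        _ ≤ n := hKs
  have hpig : ∀ v < R.size, ∀ i, (R.J v i).Nonempty → i ∈ R.pigeons := by
    intro v hv i ⟨j, hj⟩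
    rw [mem_J] at hj
    simp only [Refutation.pigeons, mem_biUnion, mem_range, mem_image]
    exact ⟨v, hv, (i, j), hj, rfl⟩
  refine ⟨d, hd1, hd2, ?_⟩
  intro v hv
  rcases ht2 v hv with h | h
  · left
    refine lt_of_le_of_lt ?_ h
    have hsub : R.act d v ⊆ (univ.filter fun i : {i // i ∈ R.pigeons} =>
        t i ≤ min K ((R.J v i).card / (12 * s))).image Subtype.val := by
      intro i hi
      have hne := nonempty_of_act hd1 hi
      have hp := hpig v hv i hne
      rw [mem_act hd1] at hi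
      simp only [hd] at hi
      rw [dif_pos hp] at hi
      rw [mem_image]
      refine ⟨⟨i, hp⟩, ?_, rfl⟩
      rw [mem_filter]
      refine ⟨mem_univ _, le_min (ht1 _).2 ?_⟩
      rw [Nat.le_div_iff_mul_le (by omega)]
      calc t ⟨i, hp⟩ * (12 * s) = 12 * s * t ⟨i, hp⟩ := by ring
        _ ≤ _ := hi
    exact (card_le_card hsub).trans card_image_le
  · right
    refine h.trans (Nat.mul_le_mul_left _ ?_)
    rw [← card_image_of_injective _ Subtype.val_injective]
    apply card_le_card
    intro i hi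
    rw [mem_image] at hi
    obtain ⟨⟨i', hp⟩, hi', rfl⟩ := hi
    rw [mem_filter] at hi'
    have h1 := hi'.2.trans (min_le_right _ _)
    rw [Nat.le_div_iff_mul_le (by omega)] at h1
    have hd1' : ∀ i, 1 ≤ d i + 12 * s := fun i => (hd1 i).trans (Nat.le_add_right _ _)
    rw [mem_act hd1']
    simp only [hd]
    rw [dif_pos hp]
    calc 12 * s * t ⟨i', hp⟩ + 12 * s = (t ⟨i', hp⟩ + 1) * (12 * s) := by ring
      _ ≤ _ := h1

/-- the numerical estimate -/
theorem numerics (n s w S L : ℕ) (hL : 1 ≤ L) (hS : S ≤ 2 ^ L) (hs : 1600 * (L + 1) ≤ s)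
    (hns : 48 * s ≤ n) (hw1 : 100 * w ≤ n) (hw2 : n ≤ 200 * w) (hn2 : n ≤ s ^ 2) :
    (S : ℝ) * Real.exp (1 / 4 - w / 25) < 1 ∧
      S * Real.exp (-(6 * s / n) * (w / 32)) +
      (S * (4 / n) ^ (2 * s) +
        S * (w * S) * ((1 / 2) ^ (4 * s) * (1 + 48 * s / n) ^ w)) < 1 := by
  have hln1 : 0.6931471803 < Real.log 2 := Real.log_two_gt_d9
  have hln2 : Real.log 2 < 0.6931471808 := Real.log_two_lt_d9
  have htwo : (2 : ℝ) = Real.exp (Real.log 2) := (Real.exp_log (by norm_num)).symm
  have hLr : (1 : ℝ) ≤ L := by exact_mod_cast hL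
  have hsr : 1600 * ((L : ℝ) + 1) ≤ s := by exact_mod_cast hs
  have hnsr : 48 * (s : ℝ) ≤ n := by exact_mod_cast hns
  have hw1r : 100 * (w : ℝ) ≤ n := by exact_mod_cast hw1
  have hw2r : (n : ℝ) ≤ 200 * w := by exact_mod_cast hw2
  have hn : (0 : ℝ) < n := by linarith
  have hs0 : (0 : ℝ) < s := by linarith
  have hw0 : (0 : ℝ) < w := by linarith
  have hSr : (S : ℝ) ≤ 2 ^ L := by exact_mod_cast hS
  have hSe : (S : ℝ) ≤ Real.exp (L * Real.log 2) := by
    rw [Real.exp_nat_mul, ← htwo]
    exact hSr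
  have hS0 : (0 : ℝ) ≤ S := Nat.cast_nonneg S
  constructor
  · calc (S : ℝ) * Real.exp (1 / 4 - w / 25) ≤
          Real.exp (L * Real.log 2) * Real.exp (1 / 4 - w / 25) :=
          mul_le_mul_of_nonneg_right hSe (Real.exp_pos _).le
      _ = Real.exp (L * Real.log 2 + (1 / 4 - w / 25)) := (Real.exp_add _ _).symm
      _ < 1 := by
          rw [Real.exp_lt_one_iff]
          nlinarith
  · have p1 : (S : ℝ) * Real.exp (-(6 * s / n) * (w / 32)) ≤ 1 / 3 := by
      have e1 : -(6 * s / n) * (w / 32 : ℝ) ≤ -(3 * s / 3200) := by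
        have : (3 * s / 3200 : ℝ) ≤ 6 * s / n * (w / 32) := by
          rw [div_mul_div_comm, div_le_div_iff₀ (by norm_num) (by positivity)]
          nlinarith
        linarith
      calc (S : ℝ) * Real.exp (-(6 * s / n) * (w / 32)) ≤
            Real.exp (L * Real.log 2) * Real.exp (-(3 * s / 3200)) :=
            mul_le_mul hSe (Real.exp_le_exp.mpr e1) (Real.exp_pos _).le (Real.exp_pos _).le
        _ = Real.exp (L * Real.log 2 + -(3 * s / 3200)) := (Real.exp_add _ _).symm
        _ ≤ Real.exp (-2) := by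
            apply Real.exp_le_exp.mpr
            nlinarith
        _ ≤ 1 / 3 := by
            rw [Real.exp_neg, ← one_div]
            apply one_div_le_one_div_of_le (by norm_num)
            have := Real.add_one_le_exp (2 : ℝ)
            linarith
    have p2 : (S : ℝ) * (4 / n) ^ (2 * s) ≤ 1 / 4 := by
      have e1 : (4 / n : ℝ) ≤ 1 / 2 := by
        rw [div_le_div_iff₀ hn (by norm_num)]
        linarith
      have e2 : (4 / n : ℝ) ^ (2 * s) ≤ (1 / 2) ^ (L + 2) :=
        (pow_le_pow_left₀ (by positivity) e1 _).trans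
          (pow_le_pow_of_le_one (by norm_num) (by norm_num) (by omega))
      calc (S : ℝ) * (4 / n) ^ (2 * s) ≤ 2 ^ L * (1 / 2) ^ (L + 2) :=
            mul_le_mul hSr e2 (by positivity) (by positivity)
        _ = (2 * (1 / 2)) ^ L * (1 / 4) := by
            rw [mul_pow, pow_add]
            ring
        _ ≤ 1 / 4 := by norm_num
    have p3 : (S : ℝ) * (w * S) * ((1 / 2) ^ (4 * s) * (1 + 48 * s / n) ^ w) ≤ 1 / 4 := by
      have e1 : (1 + 48 * s / n : ℝ) ^ w ≤ 2 ^ s := by
        calc (1 + 48 * s / n : ℝ) ^ w ≤ (Real.exp (48 * s / n)) ^ w := by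
              apply pow_le_pow_left₀ (by positivity)
              have := Real.add_one_le_exp (48 * s / n : ℝ)
              linarith
          _ = Real.exp (w * (48 * s / n)) := (Real.exp_nat_mul _ _).symm
          _ ≤ Real.exp (s * Real.log 2) := by
              apply Real.exp_le_exp.mpr
              have : (w : ℝ) * (48 * s / n) ≤ 0.48 * s := by
                rw [mul_div_assoc', div_le_iff₀ hn]
                nlinarith
              nlinarith
          _ = 2 ^ s := by rw [Real.exp_nat_mul, ← htwo]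
      have e2 : (w : ℝ) ≤ 2 ^ (2 * s) := by
        have a1 : w ≤ 2 ^ (2 * s) := by
          have a2 : s < 2 ^ s := Nat.lt_two_pow_self
          calc w ≤ n := by omega
            _ ≤ s ^ 2 := hn2
            _ ≤ (2 ^ s) ^ 2 := Nat.pow_le_pow_left a2.le 2
            _ = 2 ^ (2 * s) := by rw [← pow_mul, mul_comm]
        exact_mod_cast a1
      have e3 : (S : ℝ) * (w * S) ≤ 2 ^ L * (2 ^ (2 * s) * 2 ^ L) :=
        mul_le_mul hSr (mul_le_mul e2 hSr hS0 (by positivity)) (by positivity) (by positivity)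
      have e4 : ((1 / 2 : ℝ) ^ (4 * s) * (1 + 48 * s / n) ^ w) ≤ (1 / 2) ^ (4 * s) * 2 ^ s :=
        mul_le_mul_of_nonneg_left e1 (by positivity)
      calc (S : ℝ) * (w * S) * ((1 / 2) ^ (4 * s) * (1 + 48 * s / n) ^ w) ≤
            2 ^ L * (2 ^ (2 * s) * 2 ^ L) * ((1 / 2) ^ (4 * s) * 2 ^ s) :=
            mul_le_mul e3 e4 (by positivity) (by positivity)
        _ = 2 ^ (2 * L) * (1 / 2) ^ s * ((2 : ℝ) * (1 / 2)) ^ (3 * s) := by
            rw [mul_pow, show 4 * s = s + 3 * s by ring, pow_add (1 / 2 : ℝ) s (3 * s)]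
            ring
        _ = 2 ^ (2 * L) * (1 / 2) ^ s := by norm_num
        _ ≤ 2 ^ (2 * L) * (1 / 2) ^ (2 * L + 2) := by
            apply mul_le_mul_of_nonneg_left _ (by positivity)
            apply pow_le_pow_of_le_one (by norm_num) (by norm_num)
            omega
        _ = (2 * (1 / 2)) ^ (2 * L) * (1 / 4) := by
            rw [mul_pow, pow_add]
            ring
        _ ≤ 1 / 4 := by norm_num
    linarith

/-- the main estimate -/
theorem main_bound (n : ℕ) (R : Refutation n) (hR : R.IsRegular) :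
    n ≤ 38400 * (Nat.log 2 R.pigeons.card + 2) * (Nat.log 2 R.size + 2) := by
  by_contra hcon
  rw [not_le] at hcon
  set K := Nat.log 2 R.pigeons.card + 2 with hK
  set L := Nat.log 2 R.size + 1 with hL
  set s := n / (24 * K) with hs
  set w := n / 100 with hw
  have hn0 : 0 < n := by omega
  have hL2 : Nat.log 2 R.size + 2 = L + 1 := by omega
  rw [hL2] at hcon
  have hKL : K ≤ L + 1 := by
    have := Nat.log_mono_right (b := 2) (card_pigeons_le (R := R) hn0)
    omega
  have hs1 : 1600 * (L + 1) ≤ s := by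
    rw [hs, Nat.le_div_iff_mul_le (by omega)]
    calc 1600 * (L + 1) * (24 * K) = 38400 * K * (L + 1) := by ring
      _ ≤ n := hcon.le
  have hKs : 24 * K * s ≤ n := Nat.mul_div_le n (24 * K)
  have hns : 48 * s ≤ n := by
    calc 48 * s = 24 * 2 * s := by ring
      _ ≤ 24 * K * s := by gcongr; omega
      _ ≤ n := hKs
  have hn2 : n ≤ s ^ 2 := by
    have h1 : n < 24 * K * (s + 1) := by
      rw [hs]
      exact Nat.lt_mul_div_succ n (by omega)
    have h2 : 1600 * K ≤ s := by omega
    have h3 : 1 ≤ s := by omega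
    nlinarith
  have hw1 : 100 * w ≤ n := Nat.mul_div_le n 100
  have hw2 : n ≤ 200 * w := by omega
  have hSL : R.size ≤ 2 ^ L := (Nat.lt_pow_succ_log_self (by norm_num) _).le
  have hcard : R.pigeons.card ≤ 2 ^ (K - 1) := by
    have : K - 1 = Nat.log 2 R.pigeons.card + 1 := by omega
    rw [this]
    exact (Nat.lt_pow_succ_log_self (by norm_num) _).le
  obtain ⟨h1, h2⟩ := numerics n s w R.size L (by omega) hSL hs1 hns hw1 hw2 hn2
  obtain ⟨d, hd1, hd2, hfil⟩ := exists_good R K s w (by omega) (by omega) hKs hcard h1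
  have h3 := no_refutation hR hd1 hd2 (by omega) (by omega) (by omega) hfil
  exact absurd h3 (not_le.mpr h2)

/-- the bound which is independent of the number of the pigeons -/
theorem main_bound' (n : ℕ) (R : Refutation n) (hR : R.IsRegular) :
    n ≤ 38400 * (Nat.log 2 R.size + 2) ^ 2 := by
  rcases Nat.eq_zero_or_pos n with hn | hn
  · omega
  · refine (main_bound n R hR).trans ?_
    have := Nat.log_mono_right (b := 2) (card_pigeons_le (R := R) hn)
    calc 38400 * (Nat.log 2 R.pigeons.card + 2) * (Nat.log 2 R.size + 2) ≤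
          38400 * (Nat.log 2 R.size + 2) * (Nat.log 2 R.size + 2) := by gcongr
      _ = _ := by ring

/-- the exponential form -/
theorem main_exp (n : ℕ) (R : Refutation n) (hR : R.IsRegular) :
    Real.exp (Real.sqrt n / 300) ≤ 4 * R.size := by
  have h1 := main_bound' n R hR
  have h2 : Real.sqrt n ≤ 196 * ((Nat.log 2 R.size : ℝ) + 2) := by
    rw [Real.sqrt_le_left (by positivity)]
    have h3 : (n : ℝ) ≤ 38400 * ((Nat.log 2 R.size : ℝ) + 2) ^ 2 := by exact_mod_cast h1
    nlinarith [sq_nonneg ((Nat.log 2 R.size : ℝ) + 2)]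
  have h4 : (2 : ℝ) ^ Nat.log 2 R.size ≤ R.size := by
    exact_mod_cast Nat.pow_log_le_self 2 R.size_pos.ne'
  have hln1 : 0.6931471803 < Real.log 2 := Real.log_two_gt_d9
  have htwo : (2 : ℝ) = Real.exp (Real.log 2) := (Real.exp_log (by norm_num)).symm
  calc Real.exp (Real.sqrt n / 300) ≤ Real.exp (((Nat.log 2 R.size + 2 : ℕ) : ℝ) * Real.log 2) := by
        apply Real.exp_le_exp.mpr
        have h5 : (0 : ℝ) ≤ (Nat.log 2 R.size : ℝ) + 2 := by positivity
        push_cast
        nlinarith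
    _ = 2 ^ (Nat.log 2 R.size + 2) := by rw [Real.exp_nat_mul, ← htwo]
    _ = 4 * 2 ^ Nat.log 2 R.size := by rw [pow_add]; ring
    _ ≤ 4 * R.size := by linarith

end Pool.Agent.H8.RG
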