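import Pool.Agent.H8.RG.Flow

/-!
# Potentials

`act d v` is the set of the pigeons `i` with at least `d i` positive literals in line `v`, `npg v`
the set of the pigeons with a negative literal.
-/

namespace Pool.Agent.H8.RG

open Relation Finset

variable {n : ℕ}

/-- The pigeons with at least `d i` positive literals in line `v`. -/
def Refutation.act (R : Refutation n) (d : ℕ → ℕ) (v : ℕ) : Finset ℕ :=
  ((R.line v).pos.image Prod.fst).filter fun i => d i ≤ (R.J v i).card

/-- The pigeons with a negative literal in line `v`. -/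
def Refutation.npg (R : Refutation n) (v : ℕ) : Finset ℕ := (R.line v).neg.image Prod.fst

/-- The pigeons which are remembered in line `v`. -/
def Refutation.dom (R : Refutation n) (d : ℕ → ℕ) (v : ℕ) : Finset ℕ := R.act d v ∪ R.npg v

theorem mem_npg {R : Refutation n} {v i : ℕ} : i ∈ R.npg v ↔ ∃ j, (i, j) ∈ (R.line v).neg := by
  simp only [Refutation.npg, mem_image]
  constructor
  · rintro ⟨⟨a, b⟩, h, rfl⟩
    exact ⟨b, h⟩
  · rintro ⟨j, hj⟩
    exact ⟨(i, j), hj, rfl⟩

theorem mem_act {R : Refutation n} {d : ℕ → ℕ} (hd : ∀ i, 1 ≤ d i) {v i : ℕ} :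
    i ∈ R.act d v ↔ d i ≤ (R.J v i).card := by
  simp only [Refutation.act, mem_filter, mem_image, and_iff_right_iff_imp]
  intro h
  have : (R.J v i).Nonempty := Finset.card_pos.mp (lt_of_lt_of_le (hd i) h)
  obtain ⟨j, hj⟩ := this
  exact ⟨(i, j), mem_J.mp hj, rfl⟩

theorem nonempty_of_act {R : Refutation n} {d : ℕ → ℕ} (hd : ∀ i, 1 ≤ d i) {v i : ℕ}
    (h : i ∈ R.act d v) : (R.J v i).Nonempty := by
  rw [mem_act hd] at h
  exact Finset.card_pos.mp (lt_of_lt_of_le (hd i) h)

/-- A target. -/
structure Target (n : ℕ) where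
  c : ℝ
  u : ℕ
  T : Finset ℕ
  f : ℕ → Fin n → ℝ
  p : ℕ → ℝ
  c_nonneg : 0 ≤ c
  f_nonneg : ∀ i h, 0 ≤ f i h
  p_nonneg : ∀ i, 0 ≤ p i

open Classical in
/-- The factor of a pigeon. -/
noncomputable def fac (R : Refutation n) (d : ℕ → ℕ) (τ : Target n) (v : ℕ) (D : Finset ℕ)
    (σ : ℕ → Fin n) (i : ℕ) : ℝ :=
  if i ∈ D then τ.f i (σ i) else
    if ∃ v'', ReflTransGen R.Prem v v'' ∧ ReflTransGen R.Prem v'' τ.u ∧ i ∈ R.act d v'' then τ.p i
    else 0

open Classical in
/-- The value of a target. -/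
noncomputable def val (R : Refutation n) (d : ℕ → ℕ) (τ : Target n) (v : ℕ) (D : Finset ℕ)
    (σ : ℕ → Fin n) : ℝ :=
  if ReflTransGen R.Prem v τ.u then τ.c * ∏ i ∈ τ.T, fac R d τ v D σ i else 0

variable {R : Refutation n} {d : ℕ → ℕ}

theorem fac_nonneg (τ : Target n) (v : ℕ) (D : Finset ℕ) (σ : ℕ → Fin n) (i : ℕ) :
    0 ≤ fac R d τ v D σ i := by
  unfold fac
  split_ifs
  · exact τ.f_nonneg _ _
  · exact τ.p_nonneg _
  · exact le_rfl

theorem val_nonneg (τ : Target n) (v : ℕ) (D : Finset ℕ) (σ : ℕ → Fin n) :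
    0 ≤ val R d τ v D σ := by
  unfold val
  split_ifs
  · exact mul_nonneg τ.c_nonneg (prod_nonneg fun i _ => fac_nonneg _ _ _ _ _)
  · exact le_rfl

/-- the value at a line where nothing is remembered -/
theorem val_le_root (τ : Target n) (v : ℕ) (σ : ℕ → Fin n) :
    val R d τ v ∅ σ ≤ τ.c * ∏ i ∈ τ.T, τ.p i := by
  unfold val
  split_ifs
  · apply mul_le_mul_of_nonneg_left _ τ.c_nonneg
    apply prod_le_prod (fun i _ => fac_nonneg _ _ _ _ _)
    intro i _
    unfold fac
    split_ifs with h1 h2
    · simp at h1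
    · exact le_rfl
    · exact τ.p_nonneg _
  · exact mul_nonneg τ.c_nonneg (prod_nonneg fun i _ => τ.p_nonneg _)

/-- moving to a premise does not increase the value -/
theorem val_move (hR : R.IsRegular) (hd : ∀ i, 1 ≤ d i) (τ : Target n) {v v' : ℕ}
    (hv : R.Reach v) (h : R.Prem v v') (σ : ℕ → Fin n) :
    val R d τ v' (R.dom d v ∩ R.dom d v') σ ≤ val R d τ v (R.dom d v) σ := by
  unfold val
  by_cases hu : ReflTransGen R.Prem v' τ.u
  · have hu' : ReflTransGen R.Prem v τ.u := ReflTransGen.head h hu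
    rw [if_pos hu, if_pos hu']
    apply mul_le_mul_of_nonneg_left _ τ.c_nonneg
    apply prod_le_prod (fun i _ => fac_nonneg _ _ _ _ _)
    intro i _
    unfold fac
    by_cases hi : i ∈ R.dom d v
    · by_cases hi' : i ∈ R.dom d v'
      · rw [if_pos (mem_inter.mpr ⟨hi, hi'⟩), if_pos hi]
      · rw [if_neg (fun hh => hi' (mem_inter.mp hh).2), if_pos hi, if_neg]
        · exact τ.f_nonneg _ _
        · rintro ⟨v'', h1, h2, h3⟩
          apply hi'
          rw [Refutation.dom, mem_union] at hi ⊢
          have hne := nonempty_of_act hd h3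
          rcases hi with hi | hi
          · left
            rw [mem_act hd] at hi ⊢
            exact hi.trans (card_le_card (J_mono hR hv (ReflTransGen.single h) h1 hne))
          · exfalso
            obtain ⟨j, hj⟩ := mem_npg.mp hi
            exact J_empty_of_neg hR hv (ReflTransGen.head h h1) hj hne
    · rw [if_neg (fun hh => hi (mem_inter.mp hh).1), if_neg hi]
      split_ifs with h1 h2
      · exact le_rfl
      · exfalso
        obtain ⟨v'', h3, h4, h5⟩ := h1
        exact h2 ⟨v'', ReflTransGen.head h h3, h4, h5⟩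
      · exact τ.p_nonneg _
      · exact le_rfl
  · rw [if_neg hu]
    exact val_nonneg (R := R) (d := d) τ v _ σ

/-- a new pigeon becomes active -/
theorem val_activate (τ : Target n) {v i : ℕ} {D : Finset ℕ} (σ : ℕ → Fin n)
    (hi : i ∈ R.act d v) (hiD : i ∉ D) (U : Finset (Fin n))
    (hf : ReflTransGen R.Prem v τ.u → i ∈ τ.T → ∑ h ∈ U, τ.f i h ≤ τ.p i * U.card) :
    ∑ h ∈ U, val R d τ v (insert i D) (Function.update σ i h) ≤ U.card * val R d τ v D σ := by
  unfold val
  by_cases hu : ReflTransGen R.Prem v τ.u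
  · simp only [if_pos hu]
    have hfac : ∀ h : Fin n, ∀ k, k ≠ i →
        fac R d τ v (insert i D) (Function.update σ i h) k = fac R d τ v D σ k := by
      intro h k hk
      unfold fac
      rw [Function.update_of_ne hk]
      by_cases hkD : k ∈ D
      · rw [if_pos (mem_insert_of_mem hkD), if_pos hkD]
      · rw [if_neg (by simp [hk, hkD]), if_neg hkD]
    by_cases hT : i ∈ τ.T
    · have e1 : ∀ h : Fin n, ∏ k ∈ τ.T, fac R d τ v (insert i D) (Function.update σ i h) k =
          τ.f i h * ∏ k ∈ τ.T.erase i, fac R d τ v D σ k := by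
        intro h
        rw [← mul_prod_erase _ _ hT]
        congr 1
        · unfold fac
          rw [if_pos (mem_insert_self _ _), Function.update_self]
        · apply prod_congr rfl
          intro k hk
          exact hfac h k (mem_erase.mp hk).1
      have e2 : ∏ k ∈ τ.T, fac R d τ v D σ k =
          τ.p i * ∏ k ∈ τ.T.erase i, fac R d τ v D σ k := by
        rw [← mul_prod_erase _ _ hT]
        congr 1
        unfold fac
        rw [if_neg hiD, if_pos ⟨v, ReflTransGen.refl, hu, hi⟩]
      simp only [e1, e2]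
      rw [← mul_sum, ← sum_mul]
      have h0 : 0 ≤ τ.c * ∏ k ∈ τ.T.erase i, fac R d τ v D σ k :=
        mul_nonneg τ.c_nonneg (prod_nonneg fun i _ => fac_nonneg _ _ _ _ _)
      have := mul_le_mul_of_nonneg_left (hf hu hT) h0
      nlinarith [this]
    · have e1 : ∀ h : Fin n, ∏ k ∈ τ.T, fac R d τ v (insert i D) (Function.update σ i h) k =
          ∏ k ∈ τ.T, fac R d τ v D σ k := by
        intro h
        apply prod_congr rfl
        intro k hk
        exact hfac h k (fun hh => hT (hh ▸ hk))
      simp only [e1]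
      rw [sum_const, nsmul_eq_mul]
  · simp only [if_neg hu]
    simp

end Pool.Agent.H8.RG
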