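import Pool.Agent.H8.RG.Pot

/-!
# The targets of the potential
-/

namespace Pool.Agent.H8.RG

open Relation Finset

variable {n : ℕ}

open Classical in
/-- one of the holes in which pigeon `i` sits according to the negative literals of line `u` -/
noncomputable def Refutation.q (R : Refutation n) (u i : ℕ) : Finset (Fin n) :=
  if h : ∃ j, (i, j) ∈ (R.line u).neg then {h.choose} else ∅

open Classical in
/-- a set of `12 s` holes which pigeon `i` gains on the way from `u` to `F` -/
noncomputable def Refutation.Δ (R : Refutation n) (s u i F : ℕ) : Finset (Fin n) :=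
  if h : ∃ D ⊆ R.J F i \ R.J u i, D.card = 12 * s then h.choose else ∅

theorem card_Δ_le (R : Refutation n) (s u i F : ℕ) : (R.Δ s u i F).card ≤ 12 * s := by
  unfold Refutation.Δ
  split_ifs with h
  · rw [h.choose_spec.2]
  · simp

theorem Δ_spec (R : Refutation n) (s u i F : ℕ) (h : 12 * s ≤ (R.J F i \ R.J u i).card) :
    R.Δ s u i F ⊆ R.J F i \ R.J u i ∧ (R.Δ s u i F).card = 12 * s := by
  have h' : ∃ D ⊆ R.J F i \ R.J u i, D.card = 12 * s := exists_subset_card_eq h
  unfold Refutation.Δ
  rw [dif_pos h']
  exact ⟨h'.choose_spec.1, h'.choose_spec.2⟩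

theorem card_q_le (R : Refutation n) (u i : ℕ) : (R.q u i).card ≤ 1 := by
  unfold Refutation.q
  split_ifs with h <;> simp

theorem q_spec (R : Refutation n) {u i : ℕ} (h : ∃ j, (i, j) ∈ (R.line u).neg) :
    ∃ j, (i, j) ∈ (R.line u).neg ∧ R.q u i = {j} := by
  refine ⟨h.choose, h.choose_spec, ?_⟩
  unfold Refutation.q
  rw [dif_pos h]

open Classical in
noncomputable def psiT (R : Refutation n) (d : ℕ → ℕ) (s F : ℕ) : Target n where
  c := 1
  u := F
  T := R.act (fun i => d i + 12 * s) F
  f := fun i h => if h ∈ R.J F i then 0 else 1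
  p := fun _ => Real.exp (-(6 * s / n))
  c_nonneg := zero_le_one
  f_nonneg := fun i h => by split_ifs <;> simp
  p_nonneg := fun _ => (Real.exp_pos _).le

open Classical in
noncomputable def xiT (R : Refutation n) (u : ℕ) : Target n where
  c := 1
  u := u
  T := R.npg u
  f := fun i h => if h ∈ R.q u i then 1 else 0
  p := fun _ => 4 / n
  c_nonneg := zero_le_one
  f_nonneg := fun i h => by split_ifs <;> simp
  p_nonneg := fun _ => by positivity

open Classical in
noncomputable def chiT (R : Refutation n) (d : ℕ → ℕ) (s u i F : ℕ) : Target n where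
  c := (1 / 2) ^ (4 * s)
  u := u
  T := R.act d u
  f := fun _ h => if h ∈ R.Δ s u i F then 2 else 1
  p := fun _ => 1 + 48 * s / n
  c_nonneg := by positivity
  f_nonneg := fun i h => by split_ifs <;> simp
  p_nonneg := fun _ => by positivity

/-- the indices of the targets -/
abbrev Ix := ℕ ⊕ (ℕ ⊕ (Σ _ : ℕ, ℕ × ℕ))

noncomputable def tgt (R : Refutation n) (d : ℕ → ℕ) (s : ℕ) : Ix → Target n
  | Sum.inl F => psiT R d s F
  | Sum.inr (Sum.inl u) => xiT R u
  | Sum.inr (Sum.inr ⟨u, i, F⟩) => chiT R d s u i F

open Classical in
noncomputable def idx (R : Refutation n) (d : ℕ → ℕ) (s w : ℕ) : Finset Ix :=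
  ((range R.size).filter fun F => w ≤ 32 * (R.act (fun i => d i + 12 * s) F).card).disjSum
    (((range R.size).filter fun u => 2 * s ≤ (R.npg u).card).disjSum
      (((range R.size).filter fun u => (R.act d u).card < w).sigma
        fun u => R.act d u ×ˢ range R.size))

/-- the potential -/
noncomputable def Psi (R : Refutation n) (d : ℕ → ℕ) (s w v : ℕ) (D : Finset ℕ)
    (σ : ℕ → Fin n) : ℝ :=
  ∑ x ∈ idx R d s w, val R d (tgt R d s x) v D σ

variable {R : Refutation n} {d : ℕ → ℕ} {s w : ℕ}

theorem le_Psi {x : Ix} (hx : x ∈ idx R d s w) (v : ℕ) (D : Finset ℕ) (σ : ℕ → Fin n) :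
    val R d (tgt R d s x) v D σ ≤ Psi R d s w v D σ :=
  single_le_sum (f := fun x => val R d (tgt R d s x) v D σ) (fun _ _ => val_nonneg _ _ _ _) hx

theorem mem_idx_psi {F : ℕ} : (Sum.inl F : Ix) ∈ idx R d s w ↔
    F < R.size ∧ w ≤ 32 * (R.act (fun i => d i + 12 * s) F).card := by
  simp [idx]

theorem mem_idx_xi {u : ℕ} : (Sum.inr (Sum.inl u) : Ix) ∈ idx R d s w ↔
    u < R.size ∧ 2 * s ≤ (R.npg u).card := by
  simp [idx]

theorem mem_idx_chi {u i F : ℕ} : (Sum.inr (Sum.inr ⟨u, i, F⟩) : Ix) ∈ idx R d s w ↔
    (u < R.size ∧ (R.act d u).card < w) ∧ i ∈ R.act d u ∧ F < R.size := by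
  simp [idx]

/-- the potential at the empty clause -/
theorem Psi_root (hn : 4 ≤ n) (v : ℕ) (σ : ℕ → Fin n) :
    Psi R d s w v ∅ σ ≤ R.size * Real.exp (-(6 * s / n) * (w / 32)) +
      (R.size * (4 / n) ^ (2 * s) +
        R.size * (w * R.size) * ((1 / 2) ^ (4 * s) * (1 + 48 * s / n) ^ w)) := by
  have hn' : (0 : ℝ) < n := by
    have : 0 < n := by omega
    exact_mod_cast this
  unfold Psi idx
  rw [sum_disjSum, sum_disjSum]
  refine add_le_add ?_ (add_le_add ?_ ?_)
  · calc _ ≤ ∑ x ∈ (range R.size).filter
          (fun F => w ≤ 32 * (R.act (fun i => d i + 12 * s) F).card),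
            Real.exp (-(6 * s / n) * (w / 32)) := by
          apply sum_le_sum
          intro F hF
          refine (val_le_root _ _ _).trans ?_
          simp only [tgt, psiT]
          rw [one_mul, prod_const, ← Real.exp_nat_mul]
          apply Real.exp_le_exp.mpr
          have h1 : (w : ℝ) / 32 ≤ ((R.act (fun i => d i + 12 * s) F).card : ℝ) := by
            rw [div_le_iff₀ (by norm_num)]
            have := (mem_filter.mp hF).2
            rw [mul_comm]
            exact_mod_cast this
          have h2 : (0 : ℝ) ≤ 6 * s / n := by positivity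
          nlinarith [mul_le_mul_of_nonneg_left h1 h2]
      _ ≤ _ := by
          rw [sum_const, nsmul_eq_mul]
          apply mul_le_mul_of_nonneg_right _ (Real.exp_pos _).le
          have := card_filter_le (range R.size)
            (fun F => w ≤ 32 * (R.act (fun i => d i + 12 * s) F).card)
          rw [card_range] at this
          exact_mod_cast this
  · calc _ ≤ ∑ x ∈ (range R.size).filter (fun u => 2 * s ≤ (R.npg u).card),
            ((4 : ℝ) / n) ^ (2 * s) := by
          apply sum_le_sum
          intro u hu
          refine (val_le_root _ _ _).trans ?_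
          simp only [tgt, xiT]
          rw [one_mul, prod_const]
          apply pow_le_pow_of_le_one (by positivity)
          · rw [div_le_one hn']
            exact_mod_cast hn
          · exact (mem_filter.mp hu).2
      _ ≤ _ := by
          rw [sum_const, nsmul_eq_mul]
          apply mul_le_mul_of_nonneg_right _ (by positivity)
          have := card_filter_le (range R.size) (fun u => 2 * s ≤ (R.npg u).card)
          rw [card_range] at this
          exact_mod_cast this
  · calc _ ≤ ∑ x ∈ (((range R.size).filter fun u => (R.act d u).card < w).sigma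
            fun u => R.act d u ×ˢ range R.size),
            ((1 / 2 : ℝ) ^ (4 * s) * (1 + 48 * s / n) ^ w) := by
          apply sum_le_sum
          rintro ⟨u, i, F⟩ hu
          refine (val_le_root _ _ _).trans ?_
          simp only [tgt, chiT]
          rw [prod_const]
          apply mul_le_mul_of_nonneg_left _ (by positivity)
          apply pow_le_pow_right₀
          · have : (0 : ℝ) ≤ 48 * s / n := by positivity
            linarith
          · have := (mem_sigma.mp hu).1
            exact (mem_filter.mp this).2.le
      _ ≤ _ := by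
          rw [sum_const, nsmul_eq_mul]
          apply mul_le_mul_of_nonneg_right _ (by positivity)
          rw [card_sigma]
          have h1 : ∑ u ∈ (range R.size).filter (fun u => (R.act d u).card < w),
              (R.act d u ×ˢ range R.size).card ≤
              ∑ u ∈ (range R.size).filter (fun u => (R.act d u).card < w), w * R.size := by
            apply sum_le_sum
            intro u hu
            rw [card_product, card_range]
            exact Nat.mul_le_mul_right _ (mem_filter.mp hu).2.le
          have h2 : ∑ u ∈ (range R.size).filter (fun u => (R.act d u).card < w), w * R.size ≤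
              R.size * (w * R.size) := by
            rw [sum_const, smul_eq_mul]
            apply Nat.mul_le_mul_right
            have := card_filter_le (range R.size) (fun u => (R.act d u).card < w)
            rwa [card_range] at this
          exact_mod_cast h1.trans h2

end Pool.Agent.H8.RG
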