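import Pool.Agent.H8.RG.Targets

/-!
# The walk
-/

namespace Pool.Agent.H8.RG

open Relation Finset

variable {n : ℕ} {R : Refutation n} {d : ℕ → ℕ} {s w : ℕ}

/-- the consequences of a small potential, part 1: not many pigeons are active -/
theorem act_card_lt (hd : ∀ i, 1 ≤ d i) (hs : 1 ≤ s)
    (hfil : ∀ v < R.size, (R.act d v).card < w ∨
      w ≤ 32 * (R.act (fun i => d i + 12 * s) v).card)
    {v i0 : ℕ} {D : Finset ℕ} {σ : ℕ → Fin n} (hv : R.Reach v)
    (hi0 : (R.J v i0).card = d i0) (hD : ∀ i ∈ R.dom d v, i ≠ i0 → i ∈ D)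
    (hσ : ∀ i ∈ R.act d v, i ≠ i0 → σ i ∉ R.J v i) (hPsi : Psi R d s w v D σ < 1) :
    (R.act d v).card < w := by
  rcases hfil v (reach_lt hv) with h | h
  · exact h
  · exfalso
    have hx : (Sum.inl v : Ix) ∈ idx R d s w := mem_idx_psi.mpr ⟨reach_lt hv, h⟩
    have h1 := lt_of_le_of_lt (le_Psi hx v D σ) hPsi
    apply absurd h1
    rw [not_lt]
    apply le_of_eq
    unfold val
    simp only [tgt, psiT]
    rw [if_pos ReflTransGen.refl, one_mul]
    symm
    apply prod_eq_one
    intro i hi
    have hd' : ∀ i, 1 ≤ d i + 12 * s := fun i => (hd i).trans (Nat.le_add_right _ _)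
    rw [mem_act hd'] at hi
    have hne : i ≠ i0 := by
      rintro rfl
      omega
    have hact : i ∈ R.act d v := by
      rw [mem_act hd]
      omega
    have hiD : i ∈ D := hD i (mem_union_left _ hact) hne
    unfold fac
    rw [if_pos hiD]
    simp only
    rw [if_neg (hσ i hact hne)]

/-- part 2: not many pigeons are negative -/
theorem npg_card_lt {v i0 : ℕ} {D : Finset ℕ} {σ : ℕ → Fin n} (hv : R.Reach v)
    (hi0 : i0 ∉ R.npg v) (hD : ∀ i ∈ R.dom d v, i ≠ i0 → i ∈ D)
    (hσ : ∀ i j, (i, j) ∈ (R.line v).neg → σ i = j) (hPsi : Psi R d s w v D σ < 1) :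
    (R.npg v).card < 2 * s := by
  by_contra h
  rw [not_lt] at h
  have hx : (Sum.inr (Sum.inl v) : Ix) ∈ idx R d s w := mem_idx_xi.mpr ⟨reach_lt hv, h⟩
  have h1 := lt_of_le_of_lt (le_Psi hx v D σ) hPsi
  apply absurd h1
  rw [not_lt]
  apply le_of_eq
  unfold val
  simp only [tgt, xiT]
  rw [if_pos ReflTransGen.refl, one_mul]
  symm
  apply prod_eq_one
  intro i hi
  have hne : i ≠ i0 := by
    rintro rfl
    exact hi0 hi
  have hiD : i ∈ D := hD i (mem_union_right _ hi) hne
  obtain ⟨j, hj, hq⟩ := q_spec R (mem_npg.mp hi)
  unfold fac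
  rw [if_pos hiD]
  simp only
  rw [hq, if_pos]
  rw [hσ i j hj]
  simp

open Classical in
/-- part 3: not many pigeons sit in the set `Δ` -/
theorem delta_card_lt {v i0 F : ℕ} {D : Finset ℕ} {σ : ℕ → Fin n} (hv : R.Reach v)
    (hF : F < R.size) (hi0 : i0 ∈ R.act d v) (hi0D : i0 ∉ D)
    (hw : (R.act d v).card < w) (hD : ∀ i ∈ R.dom d v, i ≠ i0 → i ∈ D)
    (hPsi : Psi R d s w v D σ < 1) :
    (((R.act d v).erase i0).filter fun i => σ i ∈ R.Δ s v i0 F).card < 4 * s := by
  have hx : (Sum.inr (Sum.inr ⟨v, i0, F⟩) : Ix) ∈ idx R d s w :=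
    mem_idx_chi.mpr ⟨⟨reach_lt hv, hw⟩, hi0, hF⟩
  have h1 := lt_of_le_of_lt (le_Psi hx v D σ) hPsi
  by_contra h
  rw [not_lt] at h
  apply absurd h1
  rw [not_lt]
  unfold val
  simp only [tgt, chiT]
  rw [if_pos ReflTransGen.refl]
  set τ := chiT R d s v i0 F with hτ
  have h2 : (2 : ℝ) ^ (((R.act d v).erase i0).filter fun i => σ i ∈ R.Δ s v i0 F).card ≤
      ∏ i ∈ R.act d v, fac R d τ v D σ i := by
    rw [← mul_prod_erase _ _ hi0]
    have e0 : (1 : ℝ) ≤ fac R d τ v D σ i0 := by
      unfold fac
      rw [if_neg hi0D, if_pos ⟨v, ReflTransGen.refl, ReflTransGen.refl, hi0⟩]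
      simp only [hτ, chiT]
      have : (0 : ℝ) ≤ 48 * s / n := by positivity
      linarith
    have e1 : (2 : ℝ) ^ (((R.act d v).erase i0).filter fun i => σ i ∈ R.Δ s v i0 F).card ≤
        ∏ i ∈ (R.act d v).erase i0, fac R d τ v D σ i := by
      calc _ = ∏ i ∈ (R.act d v).erase i0, (if σ i ∈ R.Δ s v i0 F then (2 : ℝ) else 1) := by
            rw [prod_ite, prod_const, prod_const_one, mul_one]
        _ ≤ _ := by
            apply prod_le_prod
            · intro i _
              split_ifs <;> norm_num
            · intro i hi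
              have hi' := mem_erase.mp hi
              have hiD : i ∈ D := hD i (mem_union_left _ hi'.2) hi'.1
              unfold fac
              rw [if_pos hiD]
              simp only [hτ, chiT]
              exact le_rfl
    calc _ ≤ ∏ i ∈ (R.act d v).erase i0, fac R d τ v D σ i := e1
      _ = 1 * ∏ i ∈ (R.act d v).erase i0, fac R d τ v D σ i := (one_mul _).symm
      _ ≤ _ := mul_le_mul_of_nonneg_right e0 (prod_nonneg fun i _ => fac_nonneg _ _ _ _ _)
  have h3 : (2 : ℝ) ^ (4 * s) ≤
      2 ^ (((R.act d v).erase i0).filter fun i => σ i ∈ R.Δ s v i0 F).card :=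
    pow_le_pow_right₀ (by norm_num) h
  calc (1 : ℝ) = (1 / 2) ^ (4 * s) * 2 ^ (4 * s) := by
        rw [← mul_pow]
        norm_num
    _ ≤ _ := mul_le_mul_of_nonneg_left (h3.trans h2) (by positivity)

/-- the free holes -/
def free (R : Refutation n) (d : ℕ → ℕ) (v i0 : ℕ) (σ : ℕ → Fin n) : Finset (Fin n) :=
  univ \ (R.J v i0 ∪ ((R.dom d v).erase i0).image σ)

theorem card_free {v i0 : ℕ} {σ : ℕ → Fin n} (hd2 : 2 * d i0 ≤ n) (hwn : 4 * w + 8 * s ≤ n)
    (hi0 : (R.J v i0).card = d i0) (h1 : (R.act d v).card < w) (h2 : (R.npg v).card < 2 * s) :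
    n ≤ 4 * (free R d v i0 σ).card := by
  have e1 : (R.J v i0 ∪ ((R.dom d v).erase i0).image σ).card ≤ d i0 + (w + 2 * s) := by
    refine (card_union_le _ _).trans ?_
    rw [hi0]
    apply Nat.add_le_add_left
    refine card_image_le.trans ((card_erase_le).trans ?_)
    unfold Refutation.dom
    refine (card_union_le _ _).trans ?_
    omega
  have e2 : (free R d v i0 σ).card + (R.J v i0 ∪ ((R.dom d v).erase i0).image σ).card = n := by
    unfold free
    rw [card_sdiff_add_card_eq_card (subset_univ _)]
    simp
  omega

/-- the averages of the factors of the new pigeon -/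
theorem avg_le (hR : R.IsRegular) (hd : ∀ i, 1 ≤ d i) (hd2 : ∀ i, 2 * d i ≤ n)
    (hwn : 4 * w + 8 * s ≤ n) (hn : 0 < n)
    {v i0 : ℕ} {D : Finset ℕ} {σ : ℕ → Fin n} (hv : R.Reach v) (hi0 : (R.J v i0).card = d i0)
    (hi0D : i0 ∉ D) (hD : ∀ i ∈ R.dom d v, i ≠ i0 → i ∈ D)
    (h1 : (R.act d v).card < w) (h2 : (R.npg v).card < 2 * s)
    (hPsi : Psi R d s w v D σ < 1) (x : Ix) (hx : x ∈ idx R d s w)
    (hu : ReflTransGen R.Prem v (tgt R d s x).u) (hT : i0 ∈ (tgt R d s x).T) :
    ∑ h ∈ free R d v i0 σ, (tgt R d s x).f i0 h ≤
      (tgt R d s x).p i0 * (free R d v i0 σ).card := by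
  classical
  have hact : i0 ∈ R.act d v := by rw [mem_act hd, hi0]
  have hn' : (0 : ℝ) < n := by exact_mod_cast hn
  have hU : (n : ℝ) ≤ 4 * (free R d v i0 σ).card := by
    exact_mod_cast card_free (hd2 i0) hwn hi0 h1 h2
  have hUn : ((free R d v i0 σ).card : ℝ) ≤ n := by
    have := card_le_univ (free R d v i0 σ)
    rw [Fintype.card_fin] at this
    exact_mod_cast this
  rcases x with F | u | ⟨u, i, F⟩
  · -- psi
    simp only [tgt, psiT] at hu hT ⊢
    have hF : F < R.size := refl_lt (reach_lt hv) hu
    have hd' : ∀ i, 1 ≤ d i + 12 * s := fun i => (hd i).trans (Nat.le_add_right _ _)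
    rw [mem_act hd'] at hT
    have hne : (R.J F i0).Nonempty := card_pos.mp (lt_of_lt_of_le (hd' i0) hT)
    have hsub : R.J v i0 ⊆ R.J F i0 := J_mono hR hv hu ReflTransGen.refl hne
    have hcard : 12 * s ≤ (R.J F i0 \ R.J v i0).card := by
      rw [card_sdiff_of_subset hsub, hi0]
      omega
    obtain ⟨hΔ1, hΔ2⟩ := Δ_spec R s v i0 F hcard
    have hΔ3 := delta_card_lt (s := s) (w := w) hv hF hact hi0D h1 hD hPsi
    -- the elements of Δ which are not free
    have hnf : R.Δ s v i0 F \ free R d v i0 σ ⊆
        (((R.act d v).erase i0).filter fun i => σ i ∈ R.Δ s v i0 F).image σ ∪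
          (R.npg v).image σ := by
      intro h hh
      rw [mem_sdiff] at hh
      obtain ⟨hh1, hh2⟩ := hh
      have hhJ := (mem_sdiff.mp (hΔ1 hh1)).2
      unfold free at hh2
      simp only [mem_sdiff, mem_univ, true_and, not_not, mem_union, mem_image] at hh2
      rcases hh2 with hh2 | ⟨i, hi, hih⟩
      · exact absurd hh2 hhJ
      · rw [mem_erase, Refutation.dom, mem_union] at hi
        rw [mem_union]
        rcases hi.2 with hi2 | hi2
        · left
          rw [mem_image]
          refine ⟨i, ?_, hih⟩
          rw [mem_filter, mem_erase]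
          exact ⟨⟨hi.1, hi2⟩, by rw [hih]; exact hh1⟩
        · right
          rw [mem_image]
          exact ⟨i, hi2, hih⟩
    have hnf2 : (R.Δ s v i0 F \ free R d v i0 σ).card ≤ 6 * s := by
      refine (card_le_card hnf).trans ((card_union_le _ _).trans ?_)
      have a1 := card_image_le (s := ((R.act d v).erase i0).filter fun i => σ i ∈ R.Δ s v i0 F)
        (f := σ)
      have a2 := card_image_le (s := R.npg v) (f := σ)
      omega
    have hfr : 6 * s ≤ ((free R d v i0 σ).filter fun h => h ∈ R.J F i0).card := by
      have a1 : R.Δ s v i0 F \ (R.Δ s v i0 F \ free R d v i0 σ) ⊆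
          (free R d v i0 σ).filter fun h => h ∈ R.J F i0 := by
        intro h hh
        simp only [mem_sdiff, not_and, not_not] at hh
        rw [mem_filter]
        exact ⟨hh.2 hh.1, (mem_sdiff.mp (hΔ1 hh.1)).1⟩
      have a2 := card_le_card a1
      have a3 : (R.Δ s v i0 F \ (R.Δ s v i0 F \ free R d v i0 σ)).card =
          (R.Δ s v i0 F).card - (R.Δ s v i0 F \ free R d v i0 σ).card :=
        card_sdiff_of_subset sdiff_subset
      omega
    have hsum : ∑ h ∈ free R d v i0 σ, (if h ∈ R.J F i0 then (0 : ℝ) else 1) =
        ((free R d v i0 σ).card : ℝ) -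
          ((free R d v i0 σ).filter fun h => h ∈ R.J F i0).card := by
      rw [sum_ite, sum_const_zero, zero_add, sum_const, nsmul_eq_mul, mul_one]
      have := card_filter_add_card_filter_not (s := free R d v i0 σ) (fun h => h ∈ R.J F i0)
      rw [eq_sub_iff_add_eq, add_comm]
      exact_mod_cast this
    rw [hsum]
    have hfr' : (6 * s : ℝ) ≤ ((free R d v i0 σ).filter fun h => h ∈ R.J F i0).card := by
      exact_mod_cast hfr
    have hexp : 1 - (6 * s / n : ℝ) ≤ Real.exp (-(6 * s / n)) := by
      have := Real.add_one_le_exp (-(6 * s / n : ℝ))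
      linarith
    have hcn : (0 : ℝ) ≤ (free R d v i0 σ).card := by positivity
    have key : (6 * s / n : ℝ) * (free R d v i0 σ).card ≤ 6 * s := by
      rw [div_mul_eq_mul_div, div_le_iff₀ hn']
      exact mul_le_mul_of_nonneg_left hUn (by positivity)
    nlinarith [mul_le_mul_of_nonneg_right hexp hcn]
  · -- xi
    simp only [tgt, xiT] at hu hT ⊢
    have hsum : ∑ h ∈ free R d v i0 σ, (if h ∈ R.q u i0 then (1 : ℝ) else 0) ≤ 1 := by
      rw [sum_ite, sum_const_zero, add_zero, sum_const, nsmul_eq_mul, mul_one]
      have a1 : ((free R d v i0 σ).filter fun h => h ∈ R.q u i0).card ≤ 1 := by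
        refine (card_le_card ?_).trans (card_q_le R u i0)
        intro h hh
        exact (mem_filter.mp hh).2
      exact_mod_cast a1
    refine hsum.trans ?_
    rw [div_mul_eq_mul_div, le_div_iff₀ hn', one_mul]
    exact hU
  · -- chi
    simp only [tgt, chiT] at hu hT ⊢
    have hsum : ∑ h ∈ free R d v i0 σ, (if h ∈ R.Δ s u i F then (2 : ℝ) else 1) ≤
        (free R d v i0 σ).card + 12 * s := by
      have e1 : ∀ h : Fin n, (if h ∈ R.Δ s u i F then (2 : ℝ) else 1) =
          1 + (if h ∈ R.Δ s u i F then (1 : ℝ) else 0) := by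
        intro h
        split_ifs <;> norm_num
      simp only [e1]
      rw [sum_add_distrib, sum_const, nsmul_eq_mul, mul_one]
      apply add_le_add_right
      rw [sum_ite, sum_const_zero, add_zero, sum_const, nsmul_eq_mul, mul_one]
      have a1 : ((free R d v i0 σ).filter fun h => h ∈ R.Δ s u i F).card ≤ 12 * s := by
        refine (card_le_card ?_).trans (card_Δ_le R s u i F)
        intro h hh
        exact (mem_filter.mp hh).2
      exact_mod_cast a1
    refine hsum.trans ?_
    have key : (12 * s : ℝ) ≤ 48 * s / n * (free R d v i0 σ).card := by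
      rw [div_mul_eq_mul_div, le_div_iff₀ hn']
      nlinarith [mul_le_mul_of_nonneg_left hU (show (0 : ℝ) ≤ 12 * s by positivity)]
    linarith

/-- the choice of a hole for the new pigeon -/
theorem exists_hole (hR : R.IsRegular) (hd : ∀ i, 1 ≤ d i) (hd2 : ∀ i, 2 * d i ≤ n)
    (hwn : 4 * w + 8 * s ≤ n) (hn : 0 < n) (hs : 1 ≤ s)
    (hfil : ∀ v < R.size, (R.act d v).card < w ∨
      w ≤ 32 * (R.act (fun i => d i + 12 * s) v).card)
    {v i0 : ℕ} {D : Finset ℕ} {σ : ℕ → Fin n} (hv : R.Reach v) (hi0 : (R.J v i0).card = d i0)
    (hi0D : i0 ∉ D) (hD : ∀ i ∈ R.dom d v, i ≠ i0 → i ∈ D)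
    (hσ : ∀ i ∈ R.act d v, i ≠ i0 → σ i ∉ R.J v i)
    (hσn : ∀ i j, (i, j) ∈ (R.line v).neg → σ i = j)
    (hPsi : Psi R d s w v D σ < 1) :
    ∃ h ∈ free R d v i0 σ, Psi R d s w v (insert i0 D) (Function.update σ i0 h) < 1 := by
  have hact : i0 ∈ R.act d v := by rw [mem_act hd, hi0]
  have hi0n : i0 ∉ R.npg v := by
    intro h
    obtain ⟨j, hj⟩ := mem_npg.mp h
    exact not_neg_of_pos hR hv (nonempty_of_act hd hact) j hj
  have h1 := act_card_lt hd hs hfil hv hi0 hD hσ hPsi
  have h2 := npg_card_lt hv hi0n hD hσn hPsi
  have hU := card_free (σ := σ) (hd2 i0) hwn hi0 h1 h2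
  have hne : (free R d v i0 σ).Nonempty := card_pos.mp (by omega)
  have hsum : ∑ h ∈ free R d v i0 σ,
      Psi R d s w v (insert i0 D) (Function.update σ i0 h) ≤
      ∑ h ∈ free R d v i0 σ, Psi R d s w v D σ := by
    rw [sum_const, nsmul_eq_mul]
    unfold Psi
    rw [sum_comm, mul_sum]
    apply sum_le_sum
    intro x hx
    apply val_activate _ σ hact hi0D
    intro hu hT
    exact avg_le hR hd hd2 hwn hn hv hi0 hi0D hD h1 h2 hPsi x hx hu hT
  obtain ⟨h, hh1, hh2⟩ := exists_le_of_sum_le hne hsum
  exact ⟨h, hh1, lt_of_le_of_lt hh2 hPsi⟩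

theorem Psi_move (hR : R.IsRegular) (hd : ∀ i, 1 ≤ d i) {v v' : ℕ}
    (hv : R.Reach v) (h : R.Prem v v') (σ : ℕ → Fin n) :
    Psi R d s w v' (R.dom d v ∩ R.dom d v') σ ≤ Psi R d s w v (R.dom d v) σ :=
  sum_le_sum fun _ _ => val_move hR hd _ hv h σ

/-- the walk -/
theorem walk (hR : R.IsRegular) (hd : ∀ i, 1 ≤ d i) (hd2 : ∀ i, 2 * d i ≤ n)
    (hwn : 4 * w + 8 * s ≤ n) (hn : 0 < n) (hs : 1 ≤ s)
    (hfil : ∀ v < R.size, (R.act d v).card < w ∨
      w ≤ 32 * (R.act (fun i => d i + 12 * s) v).card) (v : ℕ) :
    ∀ σ : ℕ → Fin n, R.Reach v → (∀ i ∈ R.act d v, σ i ∉ R.J v i) →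
      (∀ i j, (i, j) ∈ (R.line v).neg → σ i = j) → Set.InjOn σ (R.dom d v) →
      Psi R d s w v (R.dom d v) σ < 1 → False := by
  induction v using Nat.strong_induction_on with
  | _ v ih =>
    intro σ hv hσ hσn hinj hPsi
    have hvs := reach_lt hv
    cases hstep : R.step v with
    | none =>
      have hax := R.axiom_step v hvs hstep
      generalize hC : R.line v = C at hax
      cases hax with
      | pigeon i =>
        have hJ : R.J v i = univ := by
          ext j
          simp [mem_J, hC]
        have hact : i ∈ R.act d v := by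
          rw [mem_act hd, hJ, card_univ, Fintype.card_fin]
          have := hd2 i
          omega
        exact hσ i hact (by rw [hJ]; exact mem_univ _)
      | hole i i' j h =>
        have e1 : σ i = j := hσn i j (by rw [hC]; simp)
        have e2 : σ i' = j := hσn i' j (by rw [hC]; simp)
        apply h
        apply hinj _ _ (e1.trans e2.symm)
        · exact mem_coe.mpr (mem_union_right _ (mem_npg.mpr ⟨j, by rw [hC]; simp⟩))
        · exact mem_coe.mpr (mem_union_right _ (mem_npg.mpr ⟨j, by rw [hC]; simp⟩))
      | functional i j j' h =>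
        have e1 : σ i = j := hσn i j (by rw [hC]; simp)
        have e2 : σ i = j' := hσn i j' (by rw [hC]; simp)
        exact h (e1.symm.trans e2)
    | some p =>
      obtain ⟨a, b, i, j⟩ := p
      obtain ⟨ha, hb, hxa, hxb, he⟩ := R.res_step v hvs a b (i, j) hstep
      have hPa : R.Prem v a := ⟨a, b, (i, j), hstep, Or.inl rfl⟩
      have hPb : R.Prem v b := ⟨a, b, (i, j), hstep, Or.inr rfl⟩
      have hra : R.Reach a := Reach.tail hv (ReflTransGen.single hPa)
      have hrb : R.Reach b := Reach.tail hv (ReflTransGen.single hPb)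
      have hpa : ∀ x ∈ (R.line a).pos, x = (i, j) ∨ x ∈ (R.line v).pos := by
        intro x hx
        by_cases hxy : x = (i, j)
        · exact Or.inl hxy
        · right
          rw [he]
          simp only [resolvent, mem_union, mem_erase]
          exact Or.inl ⟨hxy, hx⟩
      have hna : (R.line a).neg ⊆ (R.line v).neg := by
        rw [he]
        exact subset_union_left
      have hpb : (R.line b).pos ⊆ (R.line v).pos := by
        rw [he]
        exact subset_union_right
      have hnb : ∀ x ∈ (R.line b).neg, x = (i, j) ∨ x ∈ (R.line v).neg := by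
        intro x hx
        by_cases hxy : x = (i, j)
        · exact Or.inl hxy
        · right
          rw [he]
          simp only [resolvent, mem_union, mem_erase]
          exact Or.inr ⟨hxy, hx⟩
      have hin : i ∉ R.npg v := by
        intro h
        obtain ⟨j', hj'⟩ := mem_npg.mp h
        exact J_empty_of_neg hR hv (ReflTransGen.single hPa) hj' ⟨j, mem_J.mpr hxa⟩
      have hJa : ∀ i', i' ≠ i → R.J a i' ⊆ R.J v i' := by
        intro i' hi' j' hj'
        rw [mem_J] at hj' ⊢
        rcases hpa _ hj' with h | h
        · exact absurd (congrArg Prod.fst h) hi'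
        · exact h
      have hacta : ∀ i' ∈ R.act d a, i' ≠ i → i' ∈ R.act d v := by
        intro i' hi' hne
        rw [mem_act hd] at hi' ⊢
        exact hi'.trans (card_le_card (hJa i' hne))
      have hnpa : R.npg a ⊆ R.npg v := by
        intro i' hi'
        obtain ⟨j', hj'⟩ := mem_npg.mp hi'
        exact mem_npg.mpr ⟨j', hna hj'⟩
      by_cases hi : i ∈ R.act d v
      · by_cases hij : σ i = j
        · -- go to b
          have hJb : ∀ i', R.J b i' ⊆ R.J v i' := by
            intro i' j' hj'
            rw [mem_J] at hj' ⊢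
            exact hpb hj'
          have hactb : R.act d b ⊆ R.act d v := by
            intro i' hi'
            rw [mem_act hd] at hi' ⊢
            exact hi'.trans (card_le_card (hJb i'))
          have hdomb : R.dom d b ⊆ R.dom d v := by
            intro i' hi'
            rw [Refutation.dom, mem_union] at hi' ⊢
            rcases hi' with h | h
            · exact Or.inl (hactb h)
            · obtain ⟨j', hj'⟩ := mem_npg.mp h
              rcases hnb _ hj' with h' | h'
              · left
                have : i' = i := congrArg Prod.fst h'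
                rw [this]
                exact hi
              · exact Or.inr (mem_npg.mpr ⟨j', h'⟩)
          have hmove := Psi_move (s := s) (w := w) hR hd hv hPb σ
          rw [inter_eq_right.mpr hdomb] at hmove
          refine ih b hb σ hrb ?_ ?_ ?_ (lt_of_le_of_lt hmove hPsi)
          · intro i' hi' h
            exact hσ i' (hactb hi') (hJb i' h)
          · intro i' j' hj'
            rcases hnb _ hj' with h' | h'
            · have e1 : i' = i := congrArg Prod.fst h'
              have e2 : j' = j := congrArg Prod.snd h'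
              rw [e1, e2, hij]
            · exact hσn i' j' h'
          · exact hinj.mono (by exact_mod_cast hdomb)
        · -- go to a
          have hdoma : R.dom d a ⊆ R.dom d v := by
            intro i' hi'
            rw [Refutation.dom, mem_union] at hi' ⊢
            rcases hi' with h | h
            · left
              by_cases hne : i' = i
              · rw [hne]; exact hi
              · exact hacta i' h hne
            · exact Or.inr (hnpa h)
          have hmove := Psi_move (s := s) (w := w) hR hd hv hPa σ
          rw [inter_eq_right.mpr hdoma] at hmove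
          refine ih a ha σ hra ?_ ?_ ?_ (lt_of_le_of_lt hmove hPsi)
          · intro i' hi' h
            by_cases hne : i' = i
            · subst hne
              rw [mem_J] at h
              rcases hpa _ h with h' | h'
              · exact hij (congrArg Prod.snd h')
              · exact hσ i' hi (mem_J.mpr h')
            · exact hσ i' (hacta i' hi' hne) (hJa i' hne h)
          · intro i' j' hj'
            exact hσn i' j' (hna hj')
          · exact hinj.mono (by exact_mod_cast hdoma)
      · -- i is not remembered
        have hidom : i ∉ R.dom d v := by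
          rw [Refutation.dom, mem_union]
          rintro (h | h)
          · exact hi h
          · exact hin h
        have hmove := Psi_move (s := s) (w := w) hR hd hv hPa σ
        by_cases hia : i ∈ R.act d a
        · -- i becomes active
          have hcard : (R.J a i).card = d i := by
            apply le_antisymm
            · have e1 : R.J a i ⊆ insert j (R.J v i) := by
                intro j' hj'
                rw [mem_J] at hj'
                rcases hpa _ hj' with h | h
                · rw [show j' = j from congrArg Prod.snd h]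
                  exact mem_insert_self _ _
                · exact mem_insert_of_mem (mem_J.mpr h)
              have e2 := (card_le_card e1).trans (card_insert_le _ _)
              rw [mem_act hd, not_le] at hi
              omega
            · exact (mem_act hd).mp hia
          have hdom' : ∀ i' ∈ R.dom d a, i' ≠ i → i' ∈ R.dom d v := by
            intro i' hi' hne
            rw [Refutation.dom, mem_union] at hi' ⊢
            rcases hi' with h | h
            · exact Or.inl (hacta i' h hne)
            · exact Or.inr (hnpa h)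
          have hD : ∀ i' ∈ R.dom d a, i' ≠ i → i' ∈ R.dom d v ∩ R.dom d a := by
            intro i' hi' hne
            exact mem_inter.mpr ⟨hdom' i' hi' hne, hi'⟩
          have hiD : i ∉ R.dom d v ∩ R.dom d a := fun h => hidom (mem_inter.mp h).1
          have hσn' : ∀ i' j', (i', j') ∈ (R.line a).neg → σ i' = j' :=
            fun i' j' hj' => hσn i' j' (hna hj')
          obtain ⟨h, hh1, hh2⟩ := exists_hole hR hd hd2 hwn hn hs hfil hra hcard hiD hD
            (fun i' hi' hne hh => hσ i' (hacta i' hi' hne) (hJa i' hne hh)) hσn'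
            (lt_of_le_of_lt hmove hPsi)
          have hidoma : i ∈ R.dom d a := mem_union_left _ hia
          have hins : insert i (R.dom d v ∩ R.dom d a) = R.dom d a := by
            ext i'
            rw [mem_insert, mem_inter]
            constructor
            · rintro (rfl | h)
              · exact hidoma
              · exact h.2
            · intro h
              by_cases hne : i' = i
              · exact Or.inl hne
              · exact Or.inr ⟨hdom' i' h hne, h⟩
          rw [hins] at hh2
          unfold free at hh1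
          simp only [mem_sdiff, mem_univ, true_and, mem_union, mem_image, not_or, not_exists,
            not_and] at hh1
          refine ih a ha (Function.update σ i h) hra ?_ ?_ ?_ hh2
          · intro i' hi' hh
            by_cases hne : i' = i
            · subst hne
              rw [Function.update_self] at hh
              exact hh1.1 hh
            · rw [Function.update_of_ne hne] at hh
              exact hσ i' (hacta i' hi' hne) (hJa i' hne hh)
          · intro i' j' hj'
            have hne : i' ≠ i := by
              rintro rfl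
              exact hin (mem_npg.mpr ⟨j', hna hj'⟩)
            rw [Function.update_of_ne hne]
            exact hσn' i' j' hj'
          · intro i1 hi1 i2 hi2 h12
            by_cases hne1 : i1 = i
            · by_cases hne2 : i2 = i
              · rw [hne1, hne2]
              · exfalso
                rw [hne1, Function.update_self, Function.update_of_ne hne2] at h12
                exact hh1.2 i2 (mem_erase.mpr ⟨hne2, mem_coe.mp hi2⟩) h12.symm
            · by_cases hne2 : i2 = i
              · exfalso
                rw [hne2, Function.update_self, Function.update_of_ne hne1] at h12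
                exact hh1.2 i1 (mem_erase.mpr ⟨hne1, mem_coe.mp hi1⟩) h12
              · rw [Function.update_of_ne hne1, Function.update_of_ne hne2] at h12
                exact hinj (mem_coe.mpr (hdom' i1 (mem_coe.mp hi1) hne1))
                  (mem_coe.mpr (hdom' i2 (mem_coe.mp hi2) hne2)) h12
        · -- i does not become active
          have hdoma : R.dom d a ⊆ R.dom d v := by
            intro i' hi'
            rw [Refutation.dom, mem_union] at hi' ⊢
            rcases hi' with h | h
            · left
              have hne : i' ≠ i := by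
                rintro rfl
                exact hia h
              exact hacta i' h hne
            · exact Or.inr (hnpa h)
          rw [inter_eq_right.mpr hdoma] at hmove
          refine ih a ha σ hra ?_ ?_ ?_ (lt_of_le_of_lt hmove hPsi)
          · intro i' hi' h
            have hne : i' ≠ i := by
              rintro rfl
              exact hia hi'
            exact hσ i' (hacta i' hi' hne) (hJa i' hne h)
          · intro i' j' hj'
            exact hσn i' j' (hna hj')
          · exact hinj.mono (by exact_mod_cast hdoma)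

/-- the walk theorem -/
theorem no_refutation (hR : R.IsRegular) (hd : ∀ i, 1 ≤ d i) (hd2 : ∀ i, 2 * d i ≤ n)
    (hwn : 4 * w + 8 * s ≤ n) (hn : 4 ≤ n) (hs : 1 ≤ s)
    (hfil : ∀ v < R.size, (R.act d v).card < w ∨
      w ≤ 32 * (R.act (fun i => d i + 12 * s) v).card) :
    1 ≤ R.size * Real.exp (-(6 * s / n) * (w / 32)) +
      (R.size * (4 / n) ^ (2 * s) +
        R.size * (w * R.size) * ((1 / 2) ^ (4 * s) * (1 + 48 * s / n) ^ w)) := by
  by_contra hlt
  rw [not_le] at hlt
  have hn0 : 0 < n := by omega
  have hJ : ∀ i, R.J (R.size - 1) i = ∅ := by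
    intro i
    ext j
    rw [mem_J, R.last]
    simp
  have hact : R.act d (R.size - 1) = ∅ := by
    ext i
    rw [mem_act hd, hJ]
    have := hd i
    simp only [card_empty, Nat.le_zero, notMem_empty, iff_false]
    omega
  have hnpg : R.npg (R.size - 1) = ∅ := by
    unfold Refutation.npg
    rw [R.last]
    simp
  have hdom : R.dom d (R.size - 1) = ∅ := by
    unfold Refutation.dom
    rw [hact, hnpg, empty_union]
  refine walk hR hd hd2 hwn hn0 hs hfil (R.size - 1) (fun _ => ⟨0, hn0⟩) ReflTransGen.refl
    ?_ ?_ ?_ ?_
  · rw [hact]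
    intro i hi
    simp at hi
  · rw [R.last]
    intro i j hi
    simp at hi
  · rw [hdom]
    intro i hi
    simp at hi
  · rw [hdom]
    exact lt_of_le_of_lt (Psi_root hn _ _) hlt

end Pool.Agent.H8.RG
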